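import Mathlib

/-!
Consecutive best approximations of an irrational number.
-/

namespace Pool.Agent.Helper28.IET3

/-- two consecutive best approximations `p / q`, `p' / q'` of `α` -/
structure Pair (α : ℝ) where
  /-- denominator -/
  q : ℤ
  /-- numerator -/
  p : ℤ
  /-- next denominator -/
  q' : ℤ
  /-- next numerator -/
  p' : ℤ
  hq : 0 ≤ q
  hqq : q ≤ q'
  hq' : 1 ≤ q'
  det : p * q' - p' * q = 1 ∨ p * q' - p' * q = -1
  sgn : ((p : ℝ) - q * α) * ((p' : ℝ) - q' * α) < 0
  dec : |(p' : ℝ) - q' * α| < |(p : ℝ) - q * α|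
  le1 : |(p : ℝ) - q * α| ≤ 1

namespace Pair

variable {α : ℝ} (P : Pair α)

/-- signed error -/
noncomputable def x : ℝ := (P.p : ℝ) - P.q * α

/-- next signed error -/
noncomputable def x' : ℝ := (P.p' : ℝ) - P.q' * α

lemma xx : P.x * P.x' < 0 := P.sgn

lemma x_ne : P.x ≠ 0 := by
  intro h; have := P.xx; rw [h, zero_mul] at this; exact lt_irrefl _ this

lemma x'_ne : P.x' ≠ 0 := by
  intro h; have := P.xx; rw [h, mul_zero] at this; exact lt_irrefl _ this

lemma x'_pos : 0 < |P.x'| := abs_pos.mpr P.x'_ne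

lemma x_pos : 0 < |P.x| := abs_pos.mpr P.x_ne

lemma dec' : |P.x'| < |P.x| := P.dec

lemma decomp (h k : ℤ) : ∃ u v : ℤ, h = u * P.q + v * P.q' ∧ k = u * P.p + v * P.p' := by
  rcases P.det with hd | hd
  · refine ⟨k * P.q' - h * P.p', h * P.p - k * P.q, ?_, ?_⟩
    · linear_combination -h * hd
    · linear_combination -k * hd
  · refine ⟨-(k * P.q' - h * P.p'), -(h * P.p - k * P.q), ?_, ?_⟩
    · linear_combination h * hd
    · linear_combination k * hd

lemma err (u v : ℤ) : ((u * P.p + v * P.p' : ℤ) : ℝ) - ((u * P.q + v * P.q' : ℤ) : ℝ) * α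
    = u * P.x + v * P.x' := by
  unfold x x'; push_cast; ring

lemma abs_comb (u v : ℤ) (huv : u * v ≤ 0) :
    |(u : ℝ) * P.x + v * P.x'| = |(u : ℝ)| * |P.x| + |(v : ℝ)| * |P.x'| := by
  have huv' : (u : ℝ) * v ≤ 0 := by exact_mod_cast huv
  have h1 : 0 ≤ ((u : ℝ) * P.x) * (v * P.x') := by
    have h2 : ((u : ℝ) * P.x) * (v * P.x') = ((u : ℝ) * v) * (P.x * P.x') := by ring
    rw [h2]
    exact mul_nonneg_of_nonpos_of_nonpos huv' P.xx.le
  rw [← abs_mul, ← abs_mul]
  rcases mul_nonneg_iff.mp h1 with ⟨h2, h3⟩ | ⟨h2, h3⟩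
  · rw [abs_of_nonneg h2, abs_of_nonneg h3, abs_of_nonneg (add_nonneg h2 h3)]
  · rw [abs_of_nonpos h2, abs_of_nonpos h3, abs_of_nonpos (add_nonpos h2 h3)]
    ring

/-- best approximation -/
lemma best (h k : ℤ) (hne : h ≠ 0 ∨ k ≠ 0) (hh : |h| < P.q') : |P.x| ≤ |(k : ℝ) - h * α| := by
  obtain ⟨u, v, rfl, rfl⟩ := P.decomp h k
  rw [P.err]
  have hx := P.x_pos
  have hx' := P.x'_pos
  have hq := P.hq
  have hq' := P.hq'
  have key : u * v ≤ 0 := by
    by_contra hcon
    push Not at hcon
    rcases pos_and_pos_or_neg_and_neg_of_mul_pos hcon with ⟨h1, h2⟩ | ⟨h1, h2⟩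
    · have : P.q' ≤ u * P.q + v * P.q' := by nlinarith
      have h3 := le_abs_self (u * P.q + v * P.q')
      linarith
    · have : P.q' ≤ -(u * P.q + v * P.q') := by nlinarith
      have h3 := neg_le_abs (u * P.q + v * P.q')
      linarith
  rw [P.abs_comb u v key]
  by_cases hu : u = 0
  · exfalso
    subst hu
    have hv : v ≠ 0 := by
      rintro rfl
      simp at hne
    have h1 : 1 ≤ |v| := Int.one_le_abs hv
    simp only [zero_mul, zero_add, abs_mul] at hh
    rw [abs_of_pos (show 0 < P.q' by linarith)] at hh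
    nlinarith
  · have h1 : (1 : ℝ) ≤ |(u : ℝ)| := by exact_mod_cast Int.one_le_abs hu
    have h2 : 0 ≤ |(v : ℝ)| * |P.x'| := by positivity
    nlinarith

/-- return times of the window of length `|x|` -/
lemma ret (h k : ℤ) (h0 : 0 < h) (h1 : h < P.q + P.q') (hh : |(k : ℝ) - h * α| < |P.x|) :
    h = P.q' ∧ k = P.p' := by
  obtain ⟨u, v, rfl, rfl⟩ := P.decomp h k
  rw [P.err] at hh
  have hx := P.x_pos
  have hx' := P.x'_pos
  have hq := P.hq
  have hq' := P.hq'
  have hqq := P.hqq
  have key : u = 0 := by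
    by_contra hu
    by_cases huv : u * v ≤ 0
    · rw [P.abs_comb u v huv] at hh
      have h2 : (1 : ℝ) ≤ |(u : ℝ)| := by exact_mod_cast Int.one_le_abs hu
      have h3 : 0 ≤ |(v : ℝ)| * |P.x'| := by positivity
      nlinarith
    · push Not at huv
      rcases pos_and_pos_or_neg_and_neg_of_mul_pos huv with ⟨h2, h3⟩ | ⟨h2, h3⟩
      · nlinarith
      · nlinarith
  subst key
  have hv : v = 1 := by
    have hv0 : 0 < v := by
      by_contra hcon
      push Not at hcon
      nlinarith
    have hv2 : v < 2 := by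
      by_contra hcon
      push Not at hcon
      nlinarith
    omega
  subst hv
  constructor <;> ring

/-- the area identity -/
lemma area : |P.x| * P.q' + |P.x'| * P.q = 1 := by
  have h1 : P.x * P.q' - P.x' * P.q = 1 ∨ P.x * P.q' - P.x' * P.q = -1 := by
    have h2 : P.x * P.q' - P.x' * P.q = ((P.p * P.q' - P.p' * P.q : ℤ) : ℝ) := by
      unfold x x'; push_cast; ring
    rw [h2]
    rcases P.det with h | h
    · left; rw [h]; norm_num
    · right; rw [h]; norm_num
  have hq : (0 : ℝ) ≤ P.q := by exact_mod_cast P.hq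
  have hq' : (1 : ℝ) ≤ P.q' := by exact_mod_cast P.hq'
  have hxx := P.xx
  rcases lt_or_gt_of_ne P.x_ne with hx | hx
  · have hx' : 0 < P.x' := by
      by_contra hcon
      push Not at hcon
      nlinarith
    rw [abs_of_neg hx, abs_of_pos hx']
    rcases h1 with h | h
    · nlinarith
    · linarith
  · have hx' : P.x' < 0 := by
      by_contra hcon
      push Not at hcon
      nlinarith
    rw [abs_of_pos hx, abs_of_neg hx']
    rcases h1 with h | h
    · linarith
    · nlinarith

/-- partial quotient -/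
noncomputable def A : ℤ := ⌊|P.x| / |P.x'|⌋

lemma one_le_A : 1 ≤ P.A := by
  unfold A
  rw [Int.le_floor]
  push_cast
  rw [le_div_iff₀ P.x'_pos]
  linarith [P.dec']

lemma A_mul_le : (P.A : ℝ) * |P.x'| ≤ |P.x| := by
  have h := Int.floor_le (|P.x| / |P.x'|)
  rwa [le_div_iff₀ P.x'_pos] at h

lemma lt_A_mul : |P.x| < (P.A + 1 : ℝ) * |P.x'| := by
  have h := Int.lt_floor_add_one (|P.x| / |P.x'|)
  rwa [div_lt_iff₀ P.x'_pos] at h

lemma abs_next : |P.x + P.A * P.x'| = |P.x| - P.A * |P.x'| := by
  have h1 := P.A_mul_le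
  have hxx := P.xx
  rcases lt_or_gt_of_ne P.x_ne with hx | hx
  · have hx' : 0 < P.x' := by
      by_contra hcon
      push Not at hcon
      nlinarith
    rw [abs_of_neg hx, abs_of_pos hx'] at *
    rw [abs_of_nonpos (by linarith)]
    ring
  · have hx' : P.x' < 0 := by
      by_contra hcon
      push Not at hcon
      nlinarith
    rw [abs_of_pos hx, abs_of_neg hx'] at *
    rw [abs_of_nonneg (by linarith)]
    ring

/-- next pair -/
noncomputable def next (hα : Irrational α) : Pair α where
  q := P.q'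
  p := P.p'
  q' := P.q + P.A * P.q'
  p' := P.p + P.A * P.p'
  hq := by linarith [P.hq']
  hqq := by have := P.one_le_A; have := P.hq'; have := P.hq; nlinarith
  hq' := by have := P.one_le_A; have := P.hq'; have := P.hq; nlinarith
  det := by
    rcases P.det with h | h
    · right; linear_combination -h
    · left; linear_combination -h
  sgn := by
    have h1 := P.abs_next
    have h0 : P.x + P.A * P.x' ≠ 0 := by
      intro h
      have h2 : ((P.p + P.A * P.p' : ℤ) : ℝ) = ((P.q + P.A * P.q' : ℤ) : ℝ) * α := by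
        have : P.x + P.A * P.x' = ((P.p + P.A * P.p' : ℤ) : ℝ) - ((P.q + P.A * P.q' : ℤ) : ℝ) * α := by
          unfold x x'; push_cast; ring
        linarith
      have h3 : P.q + P.A * P.q' ≠ 0 := by
        have := P.one_le_A; have := P.hq'; have := P.hq; nlinarith
      have h4 := (hα.intCast_mul h3)
      rw [← h2] at h4
      exact h4 ⟨((P.p + P.A * P.p' : ℤ) : ℚ), by push_cast; rfl⟩
    have h2 : 0 < |P.x| - P.A * |P.x'| := by rw [← h1]; exact abs_pos.mpr h0
    have h3 : ((P.p' : ℝ) - P.q' * α) * (((P.p + P.A * P.p' : ℤ) : ℝ) - ((P.q + P.A * P.q' : ℤ) : ℝ) * α)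
        = P.x' * (P.x + P.A * P.x') := by unfold x x'; push_cast; ring
    rw [h3]
    have hxx := P.xx
    rcases lt_or_gt_of_ne P.x_ne with hx | hx
    · have hx' : 0 < P.x' := by
        by_contra hcon
        push Not at hcon
        nlinarith
      rw [abs_of_neg hx, abs_of_pos hx'] at h2
      nlinarith
    · have hx' : P.x' < 0 := by
        by_contra hcon
        push Not at hcon
        nlinarith
      rw [abs_of_pos hx, abs_of_neg hx'] at h2
      nlinarith
  dec := by
    have h1 := P.abs_next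
    have h3 : ((P.p + P.A * P.p' : ℤ) : ℝ) - ((P.q + P.A * P.q' : ℤ) : ℝ) * α
        = P.x + P.A * P.x' := by unfold x x'; push_cast; ring
    rw [h3, h1]
    have := P.lt_A_mul
    change _ < |P.x'|
    linarith
  le1 := by
    have := P.dec'
    have h2 : |P.x| ≤ 1 := P.le1
    change |P.x'| ≤ 1
    linarith

lemma next_x (hα : Irrational α) : (P.next hα).x = P.x' := rfl

lemma next_q (hα : Irrational α) : (P.next hα).q = P.q' := rfl

lemma next_p (hα : Irrational α) : (P.next hα).p = P.p' := rfl

lemma next_q' (hα : Irrational α) : (P.next hα).q' = P.q + P.A * P.q' := rfl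

lemma next_p' (hα : Irrational α) : (P.next hα).p' = P.p + P.A * P.p' := rfl

lemma next_x' (hα : Irrational α) : (P.next hα).x' = P.x + P.A * P.x' := by
  unfold x'
  rw [next_p', next_q']
  unfold x
  push_cast
  ring

end Pair

/-- the first pair -/
noncomputable def first (α : ℝ) (hα : Irrational α) : Pair α where
  q := 0
  p := 1
  q' := 1
  p' := ⌊α⌋
  hq := le_rfl
  hqq := by norm_num
  hq' := le_rfl
  det := by left; ring
  sgn := by
    have h1 : (⌊α⌋ : ℝ) < α := by
      refine lt_of_le_of_ne (Int.floor_le α) ?_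
      intro h
      exact hα ⟨(⌊α⌋ : ℚ), by push_cast; exact h⟩
    push_cast
    linarith
  dec := by
    have h1 := Int.floor_le α
    have h2 := Int.lt_floor_add_one α
    push_cast
    rw [abs_lt, zero_mul, sub_zero, abs_one]
    constructor <;> linarith
  le1 := by push_cast; simp

/-- the sequence of pairs -/
noncomputable def seq (α : ℝ) (hα : Irrational α) : ℕ → Pair α
  | 0 => first α hα
  | n + 1 => (seq α hα n).next hα

section
variable (α : ℝ) (hα : Irrational α)

lemma seq_q_succ (n : ℕ) : (seq α hα (n + 1)).q = (seq α hα n).q' := rfl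

lemma seq_q'_succ (n : ℕ) :
    (seq α hα (n + 1)).q' = (seq α hα n).q + (seq α hα n).A * (seq α hα n).q' := rfl

lemma seq_grow (n : ℕ) : (n : ℤ) ≤ (seq α hα n).q' ∧ (n : ℤ) ≤ (seq α hα n).q + 1 := by
  induction n with
  | zero =>
    constructor
    · have := (seq α hα 0).hq'; push_cast; linarith
    · have := (seq α hα 0).hq; push_cast; linarith
  | succ n ih =>
    obtain ⟨ih1, ih2⟩ := ih
    have h1 := seq_q_succ α hα n
    have h2 := seq_q'_succ α hα n
    have h3 := (seq α hα n).one_le_A
    have h4 := (seq α hα n).hq'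
    have h5 := (seq α hα n).hq
    constructor
    · rw [h2]
      push_cast
      rcases Nat.eq_zero_or_pos n with rfl | hn
      · push_cast; nlinarith
      · have h6 : 1 ≤ (seq α hα n).q ∨ (seq α hα n).q = 0 := by omega
        rcases h6 with h6 | h6
        · nlinarith
        · -- q = 0 forces n = 1
          rw [h6] at ih2
          have : n = 1 := by omega
          subst this
          have h7 : (seq α hα 1).q = (seq α hα 0).q' := rfl
          have h8 := (seq α hα 0).hq'
          omega
    · rw [h1]; push_cast; linarith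

lemma seq_q_ge (n : ℕ) : (n : ℤ) ≤ (seq α hα (n + 1)).q := by
  rw [seq_q_succ]; exact (seq_grow α hα n).1

end

end Pool.Agent.Helper28.IET3
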