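import Pool.Agent.Helper28.IET3.Runs
import Pool.Agent.Helper44.IETDefs

/-!
From runs of an irrational rotation to powers of codings.
-/

open Set
open Pool.Agent.Helper44.IET

namespace Pool.Agent.Helper28.IET3

/-- thresholds that are marks or preimages of marks -/
def Thr (α c a : ℝ) : Prop := ∃ k : ℤ, a = c + k ∨ a = k - α ∨ a = c - α + k

lemma fract_lt_iff {x w a : ℝ} (hw : 0 ≤ w) (h0 : ∀ k : ℤ, (k : ℝ) ∉ Icc x (x + w))
    (ha : ∀ k : ℤ, a + k ∉ Icc x (x + w)) : Int.fract (x + w) < a ↔ Int.fract x < a := by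
  have h1 : ⌊x + w⌋ = ⌊x⌋ := by
    rw [Int.floor_eq_iff]
    refine ⟨by have := Int.floor_le x; linarith, ?_⟩
    by_contra h
    push Not at h
    apply h0 (⌊x⌋ + 1)
    push_cast
    exact ⟨(Int.lt_floor_add_one x).le, h⟩
  have h2 : Int.fract (x + w) = x + w - ⌊x⌋ := by rw [Int.fract, h1]
  have h3 : Int.fract x = x - ⌊x⌋ := rfl
  rw [h2, h3]
  constructor
  · intro h; linarith
  · intro h
    by_contra h4
    push Not at h4
    apply ha ⌊x⌋
    exact ⟨by linarith, by linarith⟩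

lemma fract_lt_iff_thr {α c x w a : ℝ} (hw : 0 ≤ w) (ha : Thr α c a)
    (h0 : ∀ k : ℤ, (k : ℝ) ∉ Icc x (x + w) ∧ c + k ∉ Icc x (x + w))
    (h1 : ∀ k : ℤ, (k : ℝ) ∉ Icc (x + α) (x + α + w) ∧ c + k ∉ Icc (x + α) (x + α + w)) :
    Int.fract (x + w) < a ↔ Int.fract x < a := by
  apply fract_lt_iff hw (fun k => (h0 k).1)
  obtain ⟨l, h | h | h⟩ := ha
  · intro k hk
    apply (h0 (l + k)).2
    rw [h] at hk
    push_cast
    exact ⟨by linarith [hk.1], by linarith [hk.2]⟩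
  · intro k hk
    apply (h1 (l + k)).1
    rw [h] at hk
    push_cast
    exact ⟨by linarith [hk.1], by linarith [hk.2]⟩
  · intro k hk
    apply (h1 (l + k)).2
    rw [h] at hk
    push_cast
    exact ⟨by linarith [hk.1], by linarith [hk.2]⟩

theorem state_runs (α : ℝ) (hα : Irrational α) (c : ℝ)
    (hc : ∀ h k : ℤ, c + k - h * α ≠ 0) (x0 : ℝ) (ε : ℝ) (hε : 0 < ε) (K : ℕ) :
    ∃ q : ℕ, K ≤ q ∧ ∃ N : ℕ, (1 + Real.sqrt 2 / 2 - ε) * q ≤ N ∧ ∀ S : ℕ, ∃ i : ℕ, S ≤ i ∧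
      ∀ m < N, ∀ a, Thr α c a →
        (Int.fract (x0 + ((i + m + q : ℕ) : ℝ) * α) < a ↔
          Int.fract (x0 + ((i + m : ℕ) : ℝ) * α) < a) := by
  obtain ⟨K1, hK1⟩ := exists_nat_gt (2 / ε + 2)
  set ε1 := min (ε / 2) 1 with hε1
  have he1 : 0 < ε1 := by positivity
  have he2 : ε1 ≤ 1 := min_le_right _ _
  have he3 : ε1 ≤ ε / 2 := min_le_left _ _
  obtain ⟨q, p, hq, hne, M, hM, hrun⟩ := orbit_runs α hα c hc x0 ε1 he1 he2 (max K K1)
  have hqK : K ≤ q := le_trans (le_max_left _ _) hq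
  have hqK1 : (K1 : ℝ) ≤ q := by exact_mod_cast le_trans (le_max_right _ _) hq
  have h8 : 0 < 2 / ε := by positivity
  have hqpos : 2 < (q : ℝ) := by linarith
  have hq2 : 1 ≤ ε / 2 * q := by
    have : 2 / ε ≤ q := by linarith
    rw [div_le_iff₀ hε] at this
    linarith
  have hs2 := sqrt2_gt
  have hMpos : 1 ≤ M := by
    have h1 : (0 : ℝ) < M := by
      refine lt_of_lt_of_le ?_ hM
      apply mul_pos _ (by linarith)
      linarith
    exact_mod_cast h1
  obtain ⟨N, rfl⟩ : ∃ N, M = N + 1 := ⟨M - 1, by omega⟩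
  refine ⟨q, hqK, N, ?_, ?_⟩
  · push_cast at hM
    nlinarith
  intro S
  obtain ⟨i, hi, hfree⟩ := hrun (S + q)
  have habs : 0 ≤ |(p : ℝ) - q * α| := abs_nonneg _
  have key : ∀ m < N, ∀ a, Thr α c a →
      (Int.fract (x0 + ((i + m : ℕ) : ℝ) * α + |(p : ℝ) - q * α|) < a ↔
        Int.fract (x0 + ((i + m : ℕ) : ℝ) * α) < a) := by
    intro m hm a ha
    apply fract_lt_iff_thr habs ha
    · intro k; exact hfree m (by omega) k
    · intro k
      have := hfree (m + 1) (by omega) k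
      have h5 : x0 + ((i + (m + 1) : ℕ) : ℝ) * α = x0 + ((i + m : ℕ) : ℝ) * α + α := by
        push_cast; ring
      rw [h5] at this
      exact this
  rcases lt_or_gt_of_ne hne with hneg | hpos
  · refine ⟨i, by omega, ?_⟩
    intro m hm a ha
    rw [← key m hm a ha, abs_of_neg hneg]
    have h5 : x0 + ((i + m + q : ℕ) : ℝ) * α
        = x0 + ((i + m : ℕ) : ℝ) * α + -((p : ℝ) - q * α) + (p : ℤ) := by
      push_cast; ring
    rw [h5, Int.fract_add_intCast]
  · refine ⟨i - q, by omega, ?_⟩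
    intro m hm a ha
    have h6 : i - q + m + q = i + m := by omega
    rw [h6, ← key m hm a ha, abs_of_pos hpos]
    have h5 : x0 + ((i - q + m : ℕ) : ℝ) * α
        = x0 + ((i + m : ℕ) : ℝ) * α + ((p : ℝ) - q * α) - (p : ℤ) := by
      have h7 : ((i - q + m : ℕ) : ℝ) = ((i + m : ℕ) : ℝ) - q := by
        rw [← h6]; push_cast; ring
      rw [h7]; ring
    rw [h5, Int.fract_sub_intCast]

theorem crit_of_runs {A : Type*} (u : ℕ → A) (κ : ℝ)
    (h : ∀ ε : ℝ, 0 < ε → ∀ n : ℕ, ∃ i p l : ℕ, 0 < p ∧ n ≤ p ∧ HasPower u i p l ∧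
      (κ - ε) * p ≤ l) :
    (κ : EReal) ≤ critExp u ∧ (κ : EReal) ≤ asympCritExp u := by
  have h1 : ∀ n, (κ : EReal) ≤ critExpFrom u n := by
    intro n
    by_contra hcon
    push Not at hcon
    obtain ⟨x, hx1, hx2⟩ := EReal.lt_iff_exists_real_btwn.mp hcon
    have hx3 : x < κ := by exact_mod_cast hx2
    obtain ⟨i, p, l, hp, hn, hpow, hl⟩ := h (κ - x) (by linarith) n
    have hpr : (0 : ℝ) < p := by exact_mod_cast hp
    have h2 : x ≤ (l : ℝ) / p := by
      rw [le_div_iff₀ hpr]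
      have : κ - (κ - x) = x := by ring
      rw [this] at hl
      exact hl
    have h3 : (((l : ℝ) / (p : ℝ) : ℝ) : EReal) ≤ critExpFrom u n := by
      unfold critExpFrom
      exact le_iSup_of_le i (le_iSup_of_le p (le_iSup_of_le l (le_iSup_of_le hp
        (le_iSup_of_le hn (le_iSup_of_le hpow le_rfl)))))
    have h4 : (x : EReal) ≤ (((l : ℝ) / (p : ℝ) : ℝ) : EReal) := by exact_mod_cast h2
    exact absurd (lt_of_lt_of_le hx1 (h4.trans h3)) (lt_irrefl _)
  have h2 : critExpFrom u 0 ≤ critExp u := by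
    unfold critExpFrom critExp
    refine iSup_mono fun i => iSup_mono fun p => iSup_mono fun l => iSup_mono fun hp => ?_
    exact iSup_le fun _ => le_rfl
  refine ⟨(h1 0).trans h2, ?_⟩
  unfold asympCritExp
  split_ifs with h3
  · exact le_top
  · exact le_iInf h1

end Pool.Agent.Helper28.IET3
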