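import Pool.Agent.Helper28.IET3.Runs

/-!
Uniform counting of visits of an irrational rotation to an interval.
-/

open Set

namespace Pool.Agent.Helper28.IET3

/-- visits to `[u, v)` during one block of `q` steps -/
lemma block_lower {α : ℝ} {q : ℕ} {p : ℤ} (hq : 0 < q) (hcop : IsCoprime p (q : ℤ))
    (herr : |(p : ℝ) - q * α| * q < 1) (X u v : ℝ) (hu : 0 ≤ u) (hv : v ≤ 1)
    [DecidablePred fun j : ℕ => u ≤ Int.fract (X + j * α) ∧ Int.fract (X + j * α) < v] :
    (v - u) * q - 4 ≤
      (((Finset.range q).filter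
        (fun j : ℕ => u ≤ Int.fract (X + j * α) ∧ Int.fract (X + j * α) < v)).card : ℝ) := by
  have hqr : (0 : ℝ) < q := by exact_mod_cast hq
  have hqz : (0 : ℤ) < q := by exact_mod_cast hq
  set a : ℤ := ⌊q * X⌋ with ha
  have ha1 : (a : ℝ) ≤ q * X := Int.floor_le _
  have ha2 : q * X < a + 1 := Int.lt_floor_add_one _
  set lo : ℤ := ⌈u * q + 1⌉ with hlo
  set hi : ℤ := ⌊v * q - 2⌋ with hhi
  have hlo1 : u * q + 1 ≤ lo := Int.le_ceil _
  have hlo2 : (lo : ℝ) < u * q + 1 + 1 := Int.ceil_lt_add_one _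
  have hhi1 : (hi : ℝ) ≤ v * q - 2 := Int.floor_le _
  have hhi2 : v * q - 2 < hi + 1 := Int.lt_floor_add_one _
  have hcard : ((Finset.Icc lo hi).card : ℝ) ≥ (v - u) * q - 4 := by
    rw [Int.card_Icc]
    have h1 : ((hi + 1 - lo : ℤ) : ℝ) ≤ ((hi + 1 - lo).toNat : ℝ) := by
      have := Int.self_le_toNat (hi + 1 - lo)
      exact_mod_cast this
    push_cast at h1
    linarith
  have hle : (Finset.Icc lo hi).card ≤ ((Finset.range q).filter
        (fun j : ℕ => u ≤ Int.fract (X + j * α) ∧ Int.fract (X + j * α) < v)).card := by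
    apply Finset.card_le_card_of_surjOn (fun j : ℕ => (a + j * p) % (q : ℤ))
    intro w hw
    rw [Finset.mem_coe, Finset.mem_Icc] at hw
    have hw1 : u * q + 1 ≤ w := le_trans hlo1 (by exact_mod_cast hw.1)
    have hw2 : (w : ℝ) ≤ v * q - 2 := le_trans (by exact_mod_cast hw.2) hhi1
    have hw0 : 0 ≤ w := by
      have : (0 : ℝ) ≤ w := by nlinarith
      exact_mod_cast this
    have hwq : w < q := by
      have : (w : ℝ) < q := by nlinarith
      exact_mod_cast this
    obtain ⟨b, d, hbd⟩ := hcop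
    set j : ℤ := ((w - a) * b) % q with hj
    have hj0 : 0 ≤ j := Int.emod_nonneg _ hqz.ne'
    have hjq : j < q := Int.emod_lt_of_pos _ hqz
    obtain ⟨J, hJ⟩ := Int.eq_ofNat_of_zero_le hj0
    have hJq : J < q := by rw [hJ] at hjq; exact_mod_cast hjq
    -- a + J p = w + q l
    obtain ⟨l, hl⟩ : ∃ l : ℤ, a + J * p = w + q * l := by
      have h1 : j + q * (((w - a) * b) / q) = (w - a) * b := Int.emod_add_mul_ediv _ _
      rw [hJ] at h1
      refine ⟨-(w - a) * d - (((w - a) * b) / q) * p, ?_⟩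
      have h2 : (J : ℤ) = (w - a) * b - q * (((w - a) * b) / q) := by linarith
      rw [h2]
      linear_combination (w - a) * hbd
    have hJr : (J : ℝ) < q := by exact_mod_cast hJq
    have hJ0 : (0 : ℝ) ≤ J := Nat.cast_nonneg _
    refine ⟨J, ?_, ?_⟩
    · rw [Finset.mem_coe, Finset.mem_filter, Finset.mem_range]
      refine ⟨hJq, ?_⟩
      have hlr : (a : ℝ) + J * p = w + q * l := by exact_mod_cast hl
      have e1 : |(J : ℝ) * ((p : ℝ) - q * α)| < 1 := by
        rw [abs_mul, abs_of_nonneg hJ0]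
        have h3 : 0 ≤ |(p : ℝ) - q * α| := abs_nonneg _
        nlinarith
      have e2 := abs_lt.mp e1
      set y := X + J * α with hy
      have hqy : q * y = q * X - a + w + q * l - J * ((p : ℝ) - q * α) := by
        rw [hy]; linear_combination (1 : ℝ) * hlr
      have hfr : Int.fract y = y - l := by
        rw [Int.fract]
        congr 1
        have : ⌊y⌋ = l := by
          rw [Int.floor_eq_iff]
          constructor
          · have : (q : ℝ) * l ≤ q * y := by
              rw [hqy]; nlinarith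
            exact le_of_mul_le_mul_left this hqr
          · have : (q : ℝ) * y < q * (l + 1) := by
              rw [hqy]; nlinarith
            exact lt_of_mul_lt_mul_left this hqr.le
        rw [this]
      rw [hfr]
      constructor
      · have : (q : ℝ) * u ≤ q * (y - l) := by
          rw [mul_sub, hqy]; nlinarith
        exact le_of_mul_le_mul_left this hqr
      · have : (q : ℝ) * (y - l) < q * v := by
          rw [mul_sub, hqy]; nlinarith
        exact lt_of_mul_lt_mul_left this hqr.le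
    · simp only
      rw [hl, Int.add_mul_emod_self_left, Int.emod_eq_of_lt hw0 hwq]
  have : ((Finset.Icc lo hi).card : ℝ) ≤ (((Finset.range q).filter
        (fun j : ℕ => u ≤ Int.fract (X + j * α) ∧ Int.fract (X + j * α) < v)).card : ℝ) := by
    exact_mod_cast hle
  linarith

/-- visiting times -/
def Vis (α r X : ℝ) (j : ℕ) : Prop := Int.fract (X + j * α) < r

noncomputable instance (α r X : ℝ) : DecidablePred (Vis α r X) := fun _ => Classical.dec _

lemma vis_shift (α r X : ℝ) (a : ℕ) : (fun k => Vis α r X (a + k)) = Vis α r (X + a * α) := by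
  funext k
  unfold Vis
  congr 2
  push_cast
  ring

/-- number of visits before time `N` -/
noncomputable def cnt (α r X : ℝ) (N : ℕ) : ℕ := Nat.count (Vis α r X) N

lemma cnt_add (α r X : ℝ) (a b : ℕ) :
    cnt α r X (a + b) = cnt α r X a + cnt α r (X + a * α) b := by
  unfold cnt
  rw [Nat.count_add]
  congr 1
  have h := vis_shift α r X a
  simp only [Nat.count_eq_card_filter_range]
  congr 1
  apply Finset.filter_congr
  intro k _
  rw [← h]

lemma block_count {α : ℝ} {q : ℕ} {p : ℤ} (hq : 0 < q) (hcop : IsCoprime p (q : ℤ))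
    (herr : |(p : ℝ) - q * α| * q < 1) (X r : ℝ) (hr0 : 0 ≤ r) (hr1 : r ≤ 1) :
    |(cnt α r X q : ℝ) - r * q| ≤ 4 := by
  classical
  have h1 := block_lower hq hcop herr X 0 r le_rfl hr1
  have h2 := block_lower hq hcop herr X r 1 hr0 le_rfl
  have e1 : (Finset.range q).filter (fun j : ℕ => 0 ≤ Int.fract (X + j * α) ∧ Int.fract (X + j * α) < r)
      = (Finset.range q).filter (Vis α r X) := by
    apply Finset.filter_congr
    intro j _
    exact ⟨fun h => h.2, fun h => ⟨Int.fract_nonneg _, h⟩⟩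
  have e2 : (Finset.range q).filter (fun j : ℕ => r ≤ Int.fract (X + j * α) ∧ Int.fract (X + j * α) < 1)
      = (Finset.range q).filter (fun j => ¬ Vis α r X j) := by
    apply Finset.filter_congr
    intro j _
    exact ⟨fun h => not_lt.mpr h.1, fun h => ⟨not_lt.mp h, Int.fract_lt_one _⟩⟩
  rw [e1] at h1
  rw [e2] at h2
  have e3 := Finset.card_filter_add_card_filter_not (s := Finset.range q) (Vis α r X)
  rw [Finset.card_range] at e3
  have e4 : (((Finset.range q).filter (Vis α r X)).card : ℝ) +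
      (((Finset.range q).filter (fun j => ¬ Vis α r X j)).card : ℝ) = q := by exact_mod_cast e3
  have e5 : cnt α r X q = ((Finset.range q).filter (Vis α r X)).card := by
    unfold cnt
    rw [Nat.count_eq_card_filter_range]
  rw [e5, abs_le]
  constructor <;> linarith

lemma blocks_count {α : ℝ} {q : ℕ} {p : ℤ} (hq : 0 < q) (hcop : IsCoprime p (q : ℤ))
    (herr : |(p : ℝ) - q * α| * q < 1) (r : ℝ) (hr0 : 0 ≤ r) (hr1 : r ≤ 1) (a : ℕ) :
    ∀ X, |(cnt α r X (a * q) : ℝ) - r * (a * q)| ≤ 4 * a := by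
  induction a with
  | zero => intro X; simp [cnt]
  | succ a ih =>
    intro X
    have h1 : (a + 1) * q = a * q + q := by ring
    rw [h1, cnt_add]
    have h2 := abs_le.mp (ih X)
    have h3 := abs_le.mp (block_count hq hcop herr (X + ((a * q : ℕ) : ℝ) * α) r hr0 hr1)
    push_cast at h2 h3 ⊢
    rw [abs_le]
    constructor <;> linarith

/-- **Uniform distribution.** -/
theorem uniform_count (α : ℝ) (hα : Irrational α) (r : ℝ) (hr0 : 0 ≤ r) (hr1 : r ≤ 1)
    (δ : ℝ) (hδ : 0 < δ) : ∃ N0 : ℕ, ∀ N, N0 ≤ N → ∀ X, |(cnt α r X N : ℝ) - r * N| ≤ δ * N := by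
  obtain ⟨n, hn⟩ := exists_nat_gt (8 / δ)
  have hn0 : 0 < n := by
    have : (0 : ℝ) < n := lt_trans (by positivity) hn
    exact_mod_cast this
  set P := seq α hα (n + 1) with hP
  have hPq := seq_q_ge α hα n
  rw [← hP] at hPq
  obtain ⟨q, hq⟩ := Int.eq_ofNat_of_zero_le P.hq
  have hq0 : 0 < q := by
    have : (n : ℤ) ≤ q := by rw [← hq]; exact hPq
    omega
  have hcop : IsCoprime P.p (q : ℤ) := by
    rw [← hq]
    rcases P.det with h | h
    · exact ⟨P.q', -P.p', by linarith⟩
    · exact ⟨-P.q', P.p', by linarith⟩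
  have hqr : (P.q : ℝ) = q := by rw [hq]; push_cast; rfl
  have hqpos : (0 : ℝ) < q := by exact_mod_cast hq0
  have herr : |(P.p : ℝ) - q * α| * q < 1 := by
    have h1 := P.area
    have h2 : (P.q : ℝ) ≤ P.q' := by exact_mod_cast P.hqq
    have h3 := P.x'_pos
    have h4 := P.x_pos
    have h5 : P.x = (P.p : ℝ) - q * α := by rw [← hqr]; rfl
    rw [← h5]
    rw [hqr] at h1 h2
    have h6 : 0 < |P.x'| * q := by positivity
    nlinarith
  have hnq : (n : ℝ) ≤ q := by
    have : (n : ℤ) ≤ q := by rw [← hq]; exact hPq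
    exact_mod_cast this
  have h8q : 8 ≤ δ * q := by
    have : 8 / δ ≤ q := by linarith
    rw [div_le_iff₀ hδ] at this
    linarith
  obtain ⟨N0, hN0⟩ := exists_nat_gt (2 * q / δ)
  refine ⟨N0, ?_⟩
  intro N hN X
  have hNr : (N0 : ℝ) ≤ N := by exact_mod_cast hN
  have hNq : 2 * q ≤ δ * N := by
    have : 2 * q / δ ≤ N := by linarith
    rw [div_le_iff₀ hδ] at this
    linarith
  set a := N / q with ha
  set b := N % q with hb
  have hab : N = a * q + b := by
    rw [ha, hb]
    have := Nat.div_add_mod N q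
    linarith [Nat.mul_comm q (N / q)]
  have hbq : b < q := Nat.mod_lt _ hq0
  have h1 := abs_le.mp (blocks_count hq0 hcop herr r hr0 hr1 a X)
  have h2 : cnt α r X N = cnt α r X (a * q) + cnt α r (X + ((a * q : ℕ) : ℝ) * α) b := by
    rw [← cnt_add, ← hab]
  have h3 : cnt α r (X + ((a * q : ℕ) : ℝ) * α) b ≤ b := Nat.count_le _
  have h3r : ((cnt α r (X + ((a * q : ℕ) : ℝ) * α) b : ℕ) : ℝ) ≤ b := by exact_mod_cast h3
  have h3p : (0 : ℝ) ≤ ((cnt α r (X + ((a * q : ℕ) : ℝ) * α) b : ℕ) : ℝ) := Nat.cast_nonneg _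
  have hbr : (b : ℝ) < q := by exact_mod_cast hbq
  have hbp : (0 : ℝ) ≤ b := Nat.cast_nonneg _
  have hNr' : (N : ℝ) = a * q + b := by rw [hab]; push_cast; ring
  have har : (0 : ℝ) ≤ a := Nat.cast_nonneg _
  have h4 : 4 * (a : ℝ) ≤ δ / 2 * N := by
    rw [hNr']
    nlinarith [mul_le_mul_of_nonneg_left h8q har]
  have h5 : 0 ≤ r * b := mul_nonneg hr0 hbp
  have h6 : r * b ≤ b := by nlinarith
  have h7 : r * (N : ℝ) = r * (a * q) + r * b := by rw [hNr']; ring
  have h8 : (cnt α r X N : ℝ) = (cnt α r X (a * q) : ℝ) +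
      (cnt α r (X + ((a * q : ℕ) : ℝ) * α) b : ℝ) := by rw [h2]; push_cast; ring
  rw [abs_le, h7, h8]
  constructor <;> linarith

end Pool.Agent.Helper28.IET3
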