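import Pool.Agent.Helper28.IET3.Sym3

/-!
Lower bound: codings of irreducible exchanges of three intervals with Keane's condition have
arbitrarily long powers of exponent almost `2 + √2 / 2`.
-/

open Set
open Pool.Agent.Helper44.IET

namespace Pool.Agent.Helper28.IET3

lemma arith_bound {κ ε r q N k L : ℝ} (hκ0 : 1 ≤ κ) (hκ : κ ≤ 2) (hε : 0 < ε) (hε1 : ε ≤ 1)
    (hr : 0 < r) (hq : 0 < q) (hN : (κ - ε / 2) * q ≤ N) (hk2 : k ≤ r * (1 + ε / 8) * q)
    (hL1 : r * (1 - ε / 8) * N ≤ L) : (κ - ε) * k ≤ L := by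
  have e0 : 0 ≤ κ - ε := by linarith
  have e1 : (κ - ε) * k ≤ (κ - ε) * (r * (1 + ε / 8) * q) := mul_le_mul_of_nonneg_left hk2 e0
  have e2 : r * (1 - ε / 8) * ((κ - ε / 2) * q) ≤ L := by
    refine le_trans ?_ hL1
    apply mul_le_mul_of_nonneg_left hN
    apply mul_nonneg hr.le; linarith
  have e3 : (κ - ε) * (1 + ε / 8) ≤ (1 - ε / 8) * (κ - ε / 2) := by
    have : (1 - ε / 8) * (κ - ε / 2) - (κ - ε) * (1 + ε / 8)
        = ε * (1 / 2 - κ / 4) + 3 * ε ^ 2 / 16 := by ring
    have h1 : 0 ≤ ε * (1 / 2 - κ / 4) := mul_nonneg hε.le (by linarith)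
    have h2 : 0 ≤ 3 * ε ^ 2 / 16 := by positivity
    linarith
  have e4 : (κ - ε) * (r * (1 + ε / 8) * q) ≤ r * (1 - ε / 8) * ((κ - ε / 2) * q) := by
    have h3 : 0 ≤ r * q := by positivity
    have h4 := mul_le_mul_of_nonneg_left e3 h3
    have h5 : r * q * ((κ - ε) * (1 + ε / 8)) = (κ - ε) * (r * (1 + ε / 8) * q) := by ring
    have h6 : r * q * ((1 - ε / 8) * (κ - ε / 2)) = r * (1 - ε / 8) * ((κ - ε / 2) * q) := by ring
    rw [h5, h6] at h4
    exact h4
  linarith

/-- case `2 1 0` -/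
theorem powers_sym (E : Exchange 3) (hK : E.Keane) (h0 : E.perm 0 = 2) (h1 : E.perm 1 = 1)
    (h2 : E.perm 2 = 0) (u : ℕ → Fin 3) (hu : E.IsCoding u) :
    ((2 + Real.sqrt 2 / 2 : ℝ) : EReal) ≤ critExp u ∧
      ((2 + Real.sqrt 2 / 2 : ℝ) : EReal) ≤ asympCritExp u := by
  obtain ⟨hα, hc⟩ := sym_keane E h0 h1 h2 hK
  obtain ⟨x, ⟨hx0, hx1⟩, hcod⟩ := hu
  have hcp := circ_pos E
  have hrp := bas_pos E
  have hr1 := bas_lt E
  have hcb := circ_bas E
  set α := ang E with hαdef
  set r := bas E with hrdef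
  set X := x / circ E with hX
  have hX0 : 0 ≤ X := div_nonneg hx0 hcp.le
  have hXr : X < r := by
    rw [hX, div_lt_iff₀ hcp]
    linarith [mul_comm r (circ E)]
  have hXf : Int.fract X = X := Int.fract_eq_self.mpr ⟨hX0, by linarith⟩
  have hXlt : Int.fract X < r := by rw [hXf]; exact hXr
  have hxX : circ E * Int.fract X = x := by rw [hXf, hX]; field_simp [hcp.ne']
  have hs2g := sqrt2_gt
  have hs2l := sqrt2_lt
  apply crit_of_runs
  intro ε0 hε0 n
  set ε := min ε0 1 with hεdef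
  have hε : 0 < ε := by positivity
  have hε1 : ε ≤ 1 := min_le_right _ _
  have hε2 : ε ≤ ε0 := min_le_left _ _
  obtain ⟨N0, hN0⟩ := uniform_count α hα r hrp.le hr1.le (r * (ε / 8)) (by positivity)
  obtain ⟨K, hK⟩ := exists_nat_gt (2 * (n + 1 : ℝ) / r)
  obtain ⟨q, hq, N, hN, hrun⟩ := state_runs α hα r hc X (ε / 2) (by positivity) (max N0 K)
  obtain ⟨i, _, hi⟩ := hrun 0
  have hqN0 : N0 ≤ q := le_trans (le_max_left _ _) hq
  have hqK : (K : ℝ) ≤ q := by exact_mod_cast le_trans (le_max_right _ _) hq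
  have hqr : 2 * (n + 1 : ℝ) ≤ r * q := by
    have : 2 * (n + 1 : ℝ) / r ≤ q := by linarith
    rw [div_le_iff₀ hrp] at this
    linarith
  have hqpos : (0 : ℝ) < q := by
    have h3 : (0 : ℝ) ≤ n := Nat.cast_nonneg n
    by_contra h
    push Not at h
    have : r * q ≤ 0 := mul_nonpos_of_nonneg_of_nonpos hrp.le h
    linarith
  have hNq : q ≤ N := by
    have : (q : ℝ) ≤ N := by
      refine le_trans ?_ hN
      have h3 : 1 ≤ 1 + Real.sqrt 2 / 2 - ε / 2 := by linarith
      nlinarith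
    exact_mod_cast this
  -- thresholds
  have thr_r : Thr α r r := ⟨0, Or.inl (by simp)⟩
  have thr_0 : Thr α r (r - α) := ⟨0, Or.inr (Or.inr (by simp))⟩
  have thr_1 : Thr α r (1 - α) := ⟨1, Or.inr (Or.inl (by simp))⟩
  set n0 := cnt α r X i with hn0
  set k := cnt α r (X + i * α) q with hk
  set L := cnt α r (X + i * α) N with hL
  have hkc := abs_le.mp (hN0 q hqN0 (X + i * α))
  have hLc := abs_le.mp (hN0 N (le_trans hqN0 hNq) (X + i * α))
  rw [← hk] at hkc
  rw [← hL] at hLc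
  have hk1 : r * (1 - ε / 8) * q ≤ k := by nlinarith [hkc.1]
  have hk2 : (k : ℝ) ≤ r * (1 + ε / 8) * q := by nlinarith [hkc.2]
  have hL1 : r * (1 - ε / 8) * N ≤ L := by nlinarith [hLc.1]
  have hkn : (n : ℝ) + 1 ≤ k := by
    have h3 : 0 < r * q := by positivity
    nlinarith
  have hkn' : n + 1 ≤ k := by exact_mod_cast hkn
  refine ⟨n0, k, k + L, by omega, by omega, ?_, ?_⟩
  · intro j hj
    have hjL : j < L := by omega
    obtain ⟨m, hm, hvis, hcm⟩ := exists_time (Vis α r (X + i * α)) N j hjL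
    have hshift : ∀ s : ℕ, X + ((i + s : ℕ) : ℝ) * α = X + i * α + s * α := by
      intro s; push_cast; ring
    have hshift2 : ∀ s : ℕ, X + ((i + s + q : ℕ) : ℝ) * α = X + i * α + q * α + s * α := by
      intro s; push_cast; ring
    have hagree : ∀ s < N, ∀ a, Thr α r a →
        (Int.fract (X + i * α + q * α + s * α) < a ↔ Int.fract (X + i * α + s * α) < a) := by
      intro s hs a ha
      have := hi s hs a ha
      rw [hshift2, hshift] at this
      exact this
    have hvis1 : Vis α r X (i + m) := by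
      unfold Vis at hvis ⊢; rw [hshift]; exact hvis
    have hvis2 : Vis α r X (i + m + q) := by
      unfold Vis at hvis ⊢; rw [hshift2]; exact (hagree m hm r thr_r).mpr hvis
    have hc1 : cnt α r X (i + m) = n0 + j := by
      rw [cnt_add, ← hcm]; rfl
    have hc2 : cnt α r X (i + m + q) = n0 + j + k := by
      rw [show i + m + q = i + q + m by ring, cnt_add, cnt_add]
      have h3 : X + ((i + q : ℕ) : ℝ) * α = X + i * α + q * α := by push_cast; ring
      rw [h3]
      have h4 : cnt α r (X + i * α + q * α) m = cnt α r (X + i * α) m := by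
        apply cnt_congr
        intro s hs
        exact hagree s (by omega) r thr_r
      rw [h4]
      have h5 : cnt α r (X + i * α) m = j := hcm
      rw [h5]
      ring
    have t1 := orbit_at E h0 h1 h2 X hXlt (i + m) hvis1
    have t2 := orbit_at E h0 h1 h2 X hXlt (i + m + q) hvis2
    rw [← hαdef, ← hrdef, hc1, hxX, hshift] at t1
    rw [← hαdef, ← hrdef, hc2, hxX, hshift2] at t2
    have c1 := hcod (n0 + j)
    have c2 := hcod (n0 + j + k)
    rw [t1] at c1
    rw [t2] at c2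
    have conv : ∀ y a b : ℝ, circ E * a = b → (circ E * y < b ↔ y < a) := by
      intro y a b hab
      rw [← hab]
      exact ⟨fun h => lt_of_mul_lt_mul_left h hcp.le, fun h => mul_lt_mul_of_pos_left h hcp⟩
    refine letter_eq E c1 c2 ?_ ?_
    · rw [conv _ _ _ (bas_sub E), conv _ _ _ (bas_sub E)]
      exact (hagree m hm _ thr_0).symm
    · rw [conv _ _ _ (one_sub E), conv _ _ _ (one_sub E)]
      exact (hagree m hm _ thr_1).symm
  · push_cast
    have hkpos : (0 : ℝ) ≤ k := Nat.cast_nonneg k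
    have h3 : (2 + Real.sqrt 2 / 2 - ε0) * k ≤ (2 + Real.sqrt 2 / 2 - ε) * k := by
      apply mul_le_mul_of_nonneg_right _ hkpos; linarith
    have h4 : (1 + Real.sqrt 2 / 2 - ε) * k ≤ L :=
      arith_bound (by linarith) (by linarith) hε hε1 hrp hqpos hN hk2 hL1
    linarith

/-- **Lower bound for three intervals.** -/
theorem lower3 (u : ℕ → Fin 3) (hu : u ∈ Codings 3) :
    ((2 + Real.sqrt 2 / 2 : ℝ) : EReal) ≤ critExp u ∧
      ((2 + Real.sqrt 2 / 2 : ℝ) : EReal) ≤ asympCritExp u := by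
  obtain ⟨E, hI, hK, hcod⟩ := hu
  rcases perm_cases E hI with ⟨h0, h1, h2⟩ | ⟨h0, h1, h2⟩ | ⟨h0, h1, h2⟩
  · exact powers_rotA E hK h0 h1 h2 u hcod
  · exact powers_rotB E hK h0 h1 h2 u hcod
  · exact powers_sym E hK h0 h1 h2 u hcod

end Pool.Agent.Helper28.IET3
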