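import Pool.Agent.Helper28.IET3.Upper
import Pool.Agent.Helper28.IET3.Lower

/-!
The repetition thresholds of exchanges of three intervals.
-/

open Set
open Pool.Agent.Helper44.IET

namespace Pool.Agent.Helper28.IET3

/-- the silver exchange -/
noncomputable def ex3 : Exchange 3 where
  len := ![2 - Real.sqrt 2, 3 * Real.sqrt 2 / 2 - 2, 1 - Real.sqrt 2 / 2]
  perm := (finRotate 3).symm
  len_pos := by
    have h1 := sqrt2_gt
    have h2 := sqrt2_lt
    intro j
    have hcase : ∀ i : Fin 3, i = 0 ∨ i = 1 ∨ i = 2 := by decide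
    rcases hcase j with rfl | rfl | rfl
    · change 0 < 2 - Real.sqrt 2; linarith
    · change 0 < 3 * Real.sqrt 2 / 2 - 2; linarith
    · change 0 < 1 - Real.sqrt 2 / 2; linarith
  len_sum := by
    rw [Fin.sum_univ_three]
    change 2 - Real.sqrt 2 + (3 * Real.sqrt 2 / 2 - 2) + (1 - Real.sqrt 2 / 2) = 1
    ring

lemma ex3_len0 : ex3.len 0 = 1 - av := by
  change 2 - Real.sqrt 2 = 1 - (Real.sqrt 2 - 1); ring

lemma ex3_len01 : ex3.len 0 + ex3.len 1 = bv := by
  change 2 - Real.sqrt 2 + (3 * Real.sqrt 2 / 2 - 2) = Real.sqrt 2 / 2; ring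

lemma ex3_p0 : ex3.perm 0 = 2 := by
  change (finRotate 3).symm 0 = 2
  decide

lemma ex3_p1 : ex3.perm 1 = 0 := by
  change (finRotate 3).symm 1 = 0
  decide

lemma ex3_p2 : ex3.perm 2 = 1 := by
  change (finRotate 3).symm 2 = 1
  decide

lemma ex3_T (x : ℝ) (h0 : 0 ≤ x) (h1 : x < 1) : ex3.T x = Int.fract (x + av) := by
  rw [T_rotB ex3 ex3_p0 ex3_p1 ex3_p2 x h0 h1, ex3_len0]
  congr 1; ring

lemma ex3_irr : ex3.Irreducible := by
  intro k hk0 hk3 h
  have := h 0 hk0
  rw [ex3_p0] at this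
  change 2 < k at this
  omega

lemma irr_mul {x : ℝ} (hx : Irrational x) (h k : ℤ) (e : (h : ℝ) * x = k) : h = 0 := by
  by_contra hne
  have hr : (h : ℝ) ≠ 0 := by exact_mod_cast hne
  rw [irrational_iff_ne_rational] at hx
  exact hx k h hne (by rw [eq_div_iff hr]; linarith)

lemma av_bounds : 0 < av ∧ av < 1 ∧ 0 < bv ∧ bv < 1 := by
  have h1 := av_gt
  have h2 := av_lt
  have h3 := av_bv
  refine ⟨?_, ?_, ?_, ?_⟩ <;> linarith

lemma ex3_keane : ex3.Keane := by
  obtain ⟨a0, a1, b0, b1⟩ := av_bounds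
  intro i j hi hj m n heq
  have hcase : ∀ i : Fin 3, 0 < (i : ℕ) → i = 1 ∨ i = 2 := by decide
  have hl1 : ex3.left 1 = 1 - av := by rw [left1, ex3_len0]
  have hl2 : ex3.left 2 = bv := by rw [left2, ex3_len01]
  have i1 : ∀ n : ℕ, ex3.T^[n] (ex3.left 1) = Int.fract (1 - av + n * av) := by
    intro n
    rw [hl1, rot_iter ex3 ex3_T (1 - av) (by linarith) (by linarith)]
  have i2 : ∀ n : ℕ, ex3.T^[n] (ex3.left 2) = Int.fract (bv + n * av) := by
    intro n
    rw [hl2, rot_iter ex3 ex3_T bv b0.le b1]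
  rcases hcase i hi with rfl | rfl <;> rcases hcase j hj with rfl | rfl
  · rw [i1, i1, Int.fract_eq_fract] at heq
    obtain ⟨z, hz⟩ := heq
    have := irr_mul av_irr ((m : ℤ) - n) z (by push_cast; linarith)
    exact ⟨rfl, by omega⟩
  · rw [i1, i2, Int.fract_eq_fract] at heq
    obtain ⟨z, hz⟩ := heq
    exfalso
    have := irr_mul bv_irr (2 * ((m : ℤ) - n) - 3) (z + (m - n) - 2) (by
      push_cast
      have h := av_bv
      rw [h] at hz
      linarith)
    omega
  · rw [i2, i1, Int.fract_eq_fract] at heq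
    obtain ⟨z, hz⟩ := heq
    exfalso
    have := irr_mul bv_irr (2 * ((m : ℤ) - n) + 3) (z + (m - n) + 2) (by
      push_cast
      have h := av_bv
      rw [h] at hz
      linarith)
    omega
  · rw [i2, i2, Int.fract_eq_fract] at heq
    obtain ⟨z, hz⟩ := heq
    have := irr_mul av_irr ((m : ℤ) - n) z (by push_cast; linarith)
    exact ⟨rfl, by omega⟩

/-- same letter at the ends of `(w, w + δ]` -/
def Same (δ w : ℝ) : Prop :=
  ∃ c : Fin 3, Int.fract w ∈ ex3.interval c ∧ Int.fract (w + δ) ∈ ex3.interval c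

lemma same_iff {δ w : ℝ} (h : Same δ w) :
    (Int.fract w < 1 - av ↔ Int.fract (w + δ) < 1 - av) ∧
      (Int.fract w < bv ↔ Int.fract (w + δ) < bv) := by
  obtain ⟨c, h1, h2⟩ := h
  obtain ⟨a0, a1, b0, b1⟩ := av_bounds
  have hgt := av_gt
  have hlt := av_lt
  have hab := av_bv
  have hcase : ∀ i : Fin 3, i = 0 ∨ i = 1 ∨ i = 2 := by decide
  rcases hcase c with rfl | rfl | rfl
  · rw [mem0, ex3_len0] at h1 h2
    constructor <;> constructor <;> intro <;> linarith
  · rw [mem1, ex3_len01, ex3_len0] at h1 h2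
    constructor <;> constructor <;> intro <;> linarith
  · rw [mem2, ex3_len01] at h1 h2
    constructor <;> constructor <;> intro <;> linarith

lemma no_int {δ w : ℝ} (hδ0 : 0 < δ) (hδ : δ ≤ 1 / 2) (h : Same δ w) (h' : Same δ (w + av)) (n : ℤ)
    (h1 : w < n) (h2 : (n : ℝ) ≤ w + δ) : False := by
  obtain ⟨a0, a1, b0, b1⟩ := av_bounds
  have hgt := av_gt
  have hlt := av_lt
  have hab := av_bv
  have f1 : Int.fract w = w - n + 1 := by
    have : w = (w - n + 1) + ((n - 1 : ℤ) : ℝ) := by push_cast; ring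
    conv_lhs => rw [this]
    rw [Int.fract_add_intCast]
    exact Int.fract_eq_self.mpr ⟨by linarith, by linarith⟩
  have f2 : Int.fract (w + δ) = w + δ - n := by
    have : w + δ = (w + δ - n) + (n : ℝ) := by ring
    conv_lhs => rw [this]
    rw [Int.fract_add_intCast]
    exact Int.fract_eq_self.mpr ⟨by linarith, by linarith⟩
  have g1 := (same_iff h).1
  rw [f1, f2] at g1
  have g2 := g1.mpr (by linarith)
  have f3 : Int.fract (w + av) = w - n + 1 + av := by
    have : w + av = (w - n + 1 + av) + ((n - 1 : ℤ) : ℝ) := by push_cast; ring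
    conv_lhs => rw [this]
    rw [Int.fract_add_intCast]
    exact Int.fract_eq_self.mpr ⟨by linarith, by linarith⟩
  have f4 : Int.fract (w + av + δ) = w + δ - n + av := by
    have : w + av + δ = (w + δ - n + av) + (n : ℝ) := by ring
    conv_lhs => rw [this]
    rw [Int.fract_add_intCast]
    exact Int.fract_eq_self.mpr ⟨by linarith, by linarith⟩
  have g3 := (same_iff h').2
  rw [f3, f4] at g3
  have g4 : w - n + 1 + av < bv := by
    apply g3.mpr
    linarith
  linarith

lemma no_cut {δ w : ℝ} (hδ0 : 0 < δ) (h : Same δ w)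
    (hn : ∀ n : ℤ, w < n → (n : ℝ) ≤ w + δ → False) (n : ℤ) :
    (w < bv + n → bv + n ≤ w + δ → False) ∧ (w < 1 - av + n → 1 - av + n ≤ w + δ → False) := by
  have h1 : ⌊w + δ⌋ = ⌊w⌋ := by
    rw [Int.floor_eq_iff]
    refine ⟨by have := Int.floor_le w; linarith, ?_⟩
    by_contra h3
    push Not at h3
    apply hn (⌊w⌋ + 1)
    · push_cast; exact Int.lt_floor_add_one w
    · push_cast; exact h3
  have f1 : Int.fract w = w - ⌊w⌋ := rfl
  have f2 : Int.fract (w + δ) = w + δ - ⌊w⌋ := by rw [Int.fract, h1]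
  have g := same_iff h
  rw [f1, f2] at g
  have hfl := Int.floor_le w
  have hfl' := Int.lt_floor_add_one (w + δ)
  rw [h1] at hfl'
  obtain ⟨a0, a1, b0, b1⟩ := av_bounds
  constructor
  · intro e1 e2
    have hn' : n = ⌊w⌋ := by
      have t1 : (n : ℝ) < ⌊w⌋ + 1 := by linarith
      have t2 : (⌊w⌋ : ℝ) < n + 1 := by linarith
      have t3 : n < ⌊w⌋ + 1 := by exact_mod_cast t1
      have t4 : ⌊w⌋ < n + 1 := by exact_mod_cast t2
      omega
    rw [hn'] at e1 e2
    have := g.2.mp (by linarith)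
    linarith
  · intro e1 e2
    have hn' : n = ⌊w⌋ := by
      have t1 : (n : ℝ) < ⌊w⌋ + 1 := by linarith
      have t2 : (⌊w⌋ : ℝ) < n + 1 := by linarith
      have t3 : n < ⌊w⌋ + 1 := by exact_mod_cast t1
      have t4 : ⌊w⌋ < n + 1 := by exact_mod_cast t2
      omega
    rw [hn'] at e1 e2
    have := g.1.mp (by linarith)
    linarith

/-- a run of equal letters has no hits -/
lemma run_no_hit {δ w : ℝ} (hδ0 : 0 < δ) (hδ : δ ≤ 1 / 2) (m : ℕ) (hm : 2 ≤ m)
    (h : ∀ j : ℕ, j < m → Same δ (w + j * av)) (s : ℤ) (h1 : -1 ≤ s) (h2 : s ≤ 2 * m - 2) :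
    ¬ Hit bv δ w s := by
  have A : ∀ j : ℕ, j + 1 < m → ∀ n : ℤ, w + j * av < n → (n : ℝ) ≤ w + j * av + δ → False := by
    intro j hj
    apply no_int hδ0 hδ (h j (by omega))
    have := h (j + 1) hj
    have e : w + ((j + 1 : ℕ) : ℝ) * av = w + j * av + av := by push_cast; ring
    rw [e] at this
    exact this
  have B : ∀ j : ℕ, j < m → ∀ n : ℤ, w + j * av < n → (n : ℝ) ≤ w + j * av + δ → False := by
    intro j hj n e1 e2
    rcases Nat.lt_or_ge (j + 1) m with h3 | h3
    · exact A j h3 n e1 e2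
    · obtain ⟨i, rfl⟩ : ∃ i, j = i + 1 := ⟨j - 1, by omega⟩
      have h4 := (no_cut hδ0 (h i (by omega)) (A i (by omega)) (n - 1)).2
      push_cast at h4 e1 e2
      exact h4 (by linarith) (by linarith)
  have C : ∀ j : ℕ, j < m → ∀ n : ℤ, w + j * av < bv + n → bv + n ≤ w + j * av + δ → False := by
    intro j hj n
    exact (no_cut hδ0 (h j hj) (B j hj) n).1
  rintro ⟨n, e1, e2⟩
  have hab := av_bv
  rcases Int.even_or_odd' s with ⟨t, ht | ht⟩
  · obtain ⟨j, hj⟩ := Int.eq_ofNat_of_zero_le (by omega : 0 ≤ t)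
    apply B j (by omega) (n - j)
    · rw [ht, hj] at e1
      push_cast at e1 ⊢
      rw [hab]; linarith
    · rw [ht, hj] at e2
      push_cast at e2 ⊢
      rw [hab]; linarith
  · obtain ⟨j, hj⟩ := Int.eq_ofNat_of_zero_le (by omega : 0 ≤ t + 1)
    have ht' : s = 2 * (j : ℤ) - 1 := by omega
    apply C j (by omega) (n - j)
    · rw [ht'] at e1
      push_cast at e1 ⊢
      rw [hab]; linarith
    · rw [ht'] at e2
      push_cast at e2 ⊢
      rw [hab]; linarith

lemma pell_ge (n : ℕ) : (n : ℤ) + 1 ≤ pell (n + 1) := by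
  induction n with
  | zero => simp [pell]
  | succ n ih =>
    have e : pell (n + 1 + 1) = 2 * pell (n + 1) + pell n := rfl
    have := (pell_pos n).1
    rw [e]; push_cast; omega

lemma exists_pell (p : ℕ) (hp : 0 < p) : ∃ n, pell (n + 1) ≤ p ∧ (p : ℤ) < pell (n + 2) := by
  classical
  have hex : ∃ n, (p : ℤ) < pell (n + 2) := by
    refine ⟨p, ?_⟩
    have := pell_ge (p + 1)
    push_cast at this
    have e : pell (p + 1 + 1) = pell (p + 2) := rfl
    rw [e] at this
    omega
  refine ⟨Nat.find hex, ?_, Nat.find_spec hex⟩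
  rcases Nat.eq_zero_or_pos (Nat.find hex) with h | h
  · rw [h]; simp [pell]; omega
  · obtain ⟨k, hk⟩ : ∃ k, Nat.find hex = k + 1 := ⟨Nat.find hex - 1, by omega⟩
    have := Nat.find_min hex (m := k) (by omega)
    push Not at this
    rw [hk]
    exact this

/-- powers in codings of the silver exchange -/
lemma power_le (u : ℕ → Fin 3) (hu : ex3.IsCoding u) (i p l : ℕ) (hp : 0 < p)
    (hpow : HasPower u i p l) : (l : ℝ) ≤ (2 + Real.sqrt 2 / 2) * p := by
  have hs := sqrt2_gt
  have hs' := sqrt2_lt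
  have hp1 : (1 : ℝ) ≤ p := by exact_mod_cast hp
  rcases Nat.lt_or_ge l (p + 2) with hl | hl
  · have : (l : ℝ) ≤ p + 1 := by exact_mod_cast (by omega : l ≤ p + 1)
    nlinarith
  obtain ⟨m, rfl⟩ : ∃ m, l = p + m := ⟨l - p, by omega⟩
  have hm : 2 ≤ m := by omega
  obtain ⟨x, ⟨hx0, hx1⟩, hcod⟩ := hu
  have hpt : ∀ t, Int.fract (x + t * av) ∈ ex3.interval (u t) := by
    intro t
    rw [← rot_iter ex3 ex3_T x hx0 hx1]
    exact hcod t
  set P : ℤ := round ((p : ℝ) * av) with hP
  set η : ℝ := (p : ℝ) * av - P with hη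
  have hη1 : |η| ≤ 1 / 2 := abs_sub_round _
  obtain ⟨n, hn1, hn2⟩ := exists_pell p hp
  have hbest : av ^ (n + 1) ≤ |η| := by
    have := pell_best n p hp hn2 P
    rw [abs_sub_comm] at this
    exact this
  have hpowpos : 0 < av ^ (n + 1) := pow_pos (by have := av_gt; linarith) _
  have hηpos : 0 < |η| := lt_of_lt_of_le hpowpos hbest
  have hsame : ∃ w, ∀ j : ℕ, j < m → Same |η| (w + j * av) := by
    rcases lt_or_ge 0 η with h | h
    · refine ⟨x + i * av, ?_⟩
      intro j hj
      rw [abs_of_pos h]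
      refine ⟨u (i + j), ?_, ?_⟩
      · have := hpt (i + j)
        have e : x + ((i + j : ℕ) : ℝ) * av = x + i * av + j * av := by push_cast; ring
        rw [e] at this; exact this
      · have := hpt (i + j + p)
        rw [← hpow j (by omega)] at this
        have e : x + ((i + j + p : ℕ) : ℝ) * av = x + i * av + j * av + η + (P : ℤ) := by
          rw [hη]; push_cast; ring
        rw [e, Int.fract_add_intCast] at this; exact this
    · refine ⟨x + i * av + η, ?_⟩
      intro j hj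
      rw [abs_of_nonpos h]
      refine ⟨u (i + j), ?_, ?_⟩
      · have := hpt (i + j + p)
        rw [← hpow j (by omega)] at this
        have e : x + ((i + j + p : ℕ) : ℝ) * av = x + i * av + η + j * av + (P : ℤ) := by
          rw [hη]; push_cast; ring
        rw [e, Int.fract_add_intCast] at this; exact this
      · have := hpt (i + j)
        have e : x + ((i + j : ℕ) : ℝ) * av = x + i * av + η + j * av + -η := by push_cast; ring
        rw [e] at this; exact this
  obtain ⟨w, hw⟩ := hsame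
  have hno := run_no_hit hηpos hη1 m hm hw
  obtain ⟨s, hs1, hs2, hs3⟩ := silver_block n |η| w hbest (-1)
  have hsm : 2 * (m : ℤ) - 2 < s := by
    by_contra hcon
    push Not at hcon
    exact hno s hs1 hcon hs3
  have hcomp : comp (n + 1) = 3 * pell (n + 1) + pell n := by
    have e : pell (n + 1 + 1) = 2 * pell (n + 1) + pell n := rfl
    unfold comp; rw [e]; ring
  have h2m : 2 * (m : ℤ) ≤ 3 * pell (n + 1) + pell n - 1 := by
    rw [hcomp] at hs2; omega
  have h2mr : 2 * (m : ℝ) ≤ 3 * pell (n + 1) + pell n - 1 := by exact_mod_cast h2m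
  have herr := pell_err n
  have hle1 : (-av) ^ (n + 1) ≤ 1 := by
    have h5 := av_gt
    have h6 := av_lt
    refine le_trans (le_abs_self _) ?_
    rw [abs_pow, abs_neg, abs_of_pos (by linarith : (0 : ℝ) < av)]
    exact pow_le_one₀ (by linarith) (by linarith)
  have hpr : (pell (n + 1) : ℝ) ≤ p := by exact_mod_cast hn1
  have hav : av = Real.sqrt 2 - 1 := rfl
  have hfin : 2 * (m : ℝ) ≤ (2 + Real.sqrt 2) * p := by
    have h7 : 2 * (m : ℝ) ≤ pell (n + 1) * (2 + Real.sqrt 2) := by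
      have h8 : (pell n : ℝ) ≤ pell (n + 1) * av + 1 := by linarith
      rw [hav] at h8
      linarith
    have h9 : (pell (n + 1) : ℝ) * (2 + Real.sqrt 2) ≤ p * (2 + Real.sqrt 2) := by
      apply mul_le_mul_of_nonneg_right hpr; linarith
    linarith
  push_cast
  linarith

/-- existence of a coding -/
lemma exists_coding : ∃ u : ℕ → Fin 3, ex3.IsCoding u := by
  have h : ∀ n : ℕ, ∃ j, ex3.T^[n] (0 : ℝ) ∈ ex3.interval j := by
    intro n
    rw [rot_iter ex3 ex3_T 0 le_rfl one_pos]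
    exact exists_mem ex3 _ (Int.fract_nonneg _) (Int.fract_lt_one _)
  choose u hu using h
  exact ⟨u, 0, ⟨le_rfl, one_pos⟩, hu⟩

theorem thresholds3 : RT 3 = ((2 + Real.sqrt 2 / 2 : ℝ) : EReal) ∧
    RTstar 3 = ((2 + Real.sqrt 2 / 2 : ℝ) : EReal) ∧
    ∃ u ∈ Codings 3, critExp u = ((2 + Real.sqrt 2 / 2 : ℝ) : EReal) ∧
      asympCritExp u = ((2 + Real.sqrt 2 / 2 : ℝ) : EReal) := by
  obtain ⟨u, hu⟩ := exists_coding
  have hmem : u ∈ Codings 3 := ⟨ex3, ex3_irr, ex3_keane, hu⟩
  have hup : critExp u ≤ ((2 + Real.sqrt 2 / 2 : ℝ) : EReal) := by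
    unfold critExp
    refine iSup_le fun i => iSup_le fun p => iSup_le fun l => iSup_le fun hp => iSup_le fun h => ?_
    have hpr : (0 : ℝ) < p := by exact_mod_cast hp
    have h1 := power_le u hu i p l hp h
    have h2 : (l : ℝ) / p ≤ 2 + Real.sqrt 2 / 2 := by
      rw [div_le_iff₀ hpr]; exact h1
    exact_mod_cast h2
  have hup' : asympCritExp u ≤ ((2 + Real.sqrt 2 / 2 : ℝ) : EReal) := by
    unfold asympCritExp
    have hne : critExp u ≠ ⊤ := ne_top_of_le_ne_top (EReal.coe_ne_top _) hup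
    rw [if_neg hne]
    refine le_trans (iInf_le _ 0) (le_trans ?_ hup)
    unfold critExpFrom critExp
    refine iSup_mono fun i => iSup_mono fun p => iSup_mono fun l => iSup_mono fun hp => ?_
    exact iSup_le fun _ => le_rfl
  refine ⟨?_, ?_, u, hmem, ?_, ?_⟩
  · apply le_antisymm
    · exact le_trans (iInf₂_le u hmem) hup
    · exact le_iInf₂ fun v hv => (lower3 v hv).1
  · apply le_antisymm
    · exact le_trans (iInf₂_le u hmem) hup'
    · exact le_iInf₂ fun v hv => (lower3 v hv).2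
  · exact le_antisymm hup (lower3 u hmem).1
  · exact le_antisymm hup' (lower3 u hmem).2

end Pool.Agent.Helper28.IET3
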