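import Pool.Agent.Helper28.IET3.CF

/-!
Long runs of a window of length `|q α - p|` avoiding two marked orbits.
-/

open Set

namespace Pool.Agent.Helper28.IET3

/-- the window `[z, z + w]` meets neither `ℤ - h α` nor `c + ℤ - h α` at the times `s ≤ h < s + M` -/
def Free (α c w z : ℝ) (s M : ℤ) : Prop :=
  ∀ h k : ℤ, s ≤ h → h < s + M →
    ((k : ℝ) - h * α ∉ Icc z (z + w)) ∧ (c + k - h * α ∉ Icc z (z + w))

lemma Free.neg {α c w z : ℝ} {s M : ℤ} (h : Free (-α) (-c) w (-z - w) s M) :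
    Free α c w z s M := by
  intro t k h1 h2
  obtain ⟨h3, h4⟩ := h t (-k) h1 h2
  constructor
  · intro h5
    apply h3
    push_cast
    exact ⟨by linarith [h5.2], by linarith [h5.1]⟩
  · intro h5
    apply h4
    push_cast
    exact ⟨by linarith [h5.2], by linarith [h5.1]⟩

/-- windows in general position -/
lemma exists_generic (α c w : ℝ) (L U : ℝ) (hLU : L < U) :
    ∃ z, L < z ∧ z < U ∧ ∀ h k : ℤ, c + k - h * α ≠ z ∧ c + k - h * α ≠ z + w := by
  set S : Set ℝ := (range fun x : ℤ × ℤ => c + x.2 - x.1 * α) ∪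
    (range fun x : ℤ × ℤ => c + x.2 - x.1 * α - w) with hS
  have hc : S.Countable := (countable_range _).union (countable_range _)
  obtain ⟨z, hz, h1, h2⟩ := (hc.dense_compl ℝ).exists_between hLU
  refine ⟨z, h1, h2, fun h k => ⟨?_, ?_⟩⟩
  · intro h3
    exact hz (Or.inl ⟨(h, k), h3⟩)
  · intro h3
    exact hz (Or.inr ⟨(h, k), by simp only; linarith⟩)

namespace Pair

variable {α : ℝ} (P : Pair α)

/-- mirror image -/
def neg : Pair (-α) where
  q := P.q
  p := -P.p
  q' := P.q'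
  p' := -P.p'
  hq := P.hq
  hqq := P.hqq
  hq' := P.hq'
  det := by
    rcases P.det with h | h
    · right; linear_combination -h
    · left; linear_combination -h
  sgn := by
    have := P.sgn
    push_cast
    nlinarith
  dec := by
    have := P.dec
    have h1 : ((-P.p' : ℤ) : ℝ) - P.q' * -α = -((P.p' : ℝ) - P.q' * α) := by push_cast; ring
    have h2 : ((-P.p : ℤ) : ℝ) - P.q * -α = -((P.p : ℝ) - P.q * α) := by push_cast; ring
    rw [h1, h2, abs_neg, abs_neg]
    exact this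
  le1 := by
    have := P.le1
    have h2 : ((-P.p : ℤ) : ℝ) - P.q * -α = -((P.p : ℝ) - P.q * α) := by push_cast; ring
    rw [h2, abs_neg]
    exact this

lemma neg_x : P.neg.x = -P.x := by unfold x neg; push_cast; ring

lemma neg_x' : P.neg.x' = -P.x' := by unfold x' neg; push_cast; ring

/-- the window avoids `ℤ - h α` for `0 < h < q + q'` -/
lemma strip (hx : P.x < 0) (z : ℝ) (h1 : P.x < z) (h2 : z < P.x + P.x') (h k : ℤ) (h0 : 0 < h)
    (hN : h < P.q + P.q') : (k : ℝ) - h * α ∉ Icc z (z + -P.x) := by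
  intro h3
  have hxx := P.xx
  have hx' : 0 < P.x' := by
    by_contra hcon
    push Not at hcon
    nlinarith
  have hd := P.dec'
  rw [abs_of_neg hx, abs_of_pos hx'] at hd
  have h4 : |(k : ℝ) - h * α| < |P.x| := by
    rw [abs_of_neg hx, abs_lt]
    constructor
    · linarith [h3.1]
    · linarith [h3.2]
  obtain ⟨h5, h6⟩ := P.ret h k h0 hN h4
  subst h5; subst h6
  have h7 : (P.p' : ℝ) - P.q' * α = P.x' := rfl
  rw [h7] at h3
  linarith [h3.2]

/-- two hits of the second mark -/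
lemma two_hits (hx : P.x < 0) (c z : ℝ)
    (hz : ∀ h k : ℤ, c + k - h * α ≠ z ∧ c + k - h * α ≠ z + -P.x)
    (h k h' k' : ℤ) (hh : h < h') (hN : h' - h < P.q + P.q')
    (h1 : c + k - h * α ∈ Icc z (z + -P.x)) (h2 : c + k' - h' * α ∈ Icc z (z + -P.x)) :
    h' - h = P.q' ∧ c + k' - h' * α = c + k - h * α + P.x' := by
  have e1 := hz h k
  have e2 := hz h' k'
  have a1 := lt_of_le_of_ne h1.1 e1.1.symm
  have a2 := lt_of_le_of_ne h1.2 e1.2
  have b1 := lt_of_le_of_ne h2.1 e2.1.symm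
  have b2 := lt_of_le_of_ne h2.2 e2.2
  have h3 : |((k' - k : ℤ) : ℝ) - ((h' - h : ℤ) : ℝ) * α| < |P.x| := by
    rw [abs_of_neg hx, abs_lt]
    push_cast
    constructor <;> linarith
  obtain ⟨h4, h5⟩ := P.ret (h' - h) (k' - k) (by linarith) hN h3
  refine ⟨h4, ?_⟩
  have h6 : P.x' = ((k' - k : ℤ) : ℝ) - ((h' - h : ℤ) : ℝ) * α := by
    rw [h4, h5]; rfl
  rw [h6]
  push_cast
  ring

/-- first estimate -/
lemma runA_neg (hx : P.x < 0) (c : ℝ) :
    ∃ z s M, Free α c |P.x| z s M ∧ P.q + P.q' ≤ 2 * M + 2 := by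
  have hxx := P.xx
  have hx' : 0 < P.x' := by
    by_contra hcon
    push Not at hcon
    nlinarith
  have hd := P.dec'
  have hqq := P.hqq
  have hq := P.hq
  rw [abs_of_neg hx, abs_of_pos hx'] at hd
  obtain ⟨z, hz1, hz2, hz⟩ := exists_generic α c (-P.x) P.x (P.x + P.x') (by linarith)
  rw [abs_of_neg hx]
  refine ⟨z, ?_⟩
  by_cases hA : ∃ h k h' k' : ℤ, 0 < h ∧ h < h' ∧ h' < P.q + P.q' ∧
      c + k - h * α ∈ Icc z (z + -P.x) ∧ c + k' - h' * α ∈ Icc z (z + -P.x)
  · obtain ⟨h, k, h', k', h0, h1, h2, h3, h4⟩ := hA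
    obtain ⟨h5, _⟩ := P.two_hits hx c z hz h k h' k' h1 (by linarith) h3 h4
    refine ⟨h + 1, P.q' - 1, ?_, by linarith⟩
    intro t l ht1 ht2
    refine ⟨P.strip hx z hz1 hz2 t l (by linarith) (by linarith), ?_⟩
    intro h6
    obtain ⟨h7, _⟩ := P.two_hits hx c z hz h k t l (by linarith) (by linarith) h3 h6
    linarith
  · push Not at hA
    by_cases hB : ∃ h k : ℤ, 0 < h ∧ h < P.q + P.q' ∧ c + k - h * α ∈ Icc z (z + -P.x)
    · obtain ⟨h, k, h0, h1, h2⟩ := hB
      by_cases hmid : 2 * h ≤ P.q + P.q'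
      · refine ⟨h + 1, P.q + P.q' - 1 - h, ?_, by linarith⟩
        intro t l ht1 ht2
        refine ⟨P.strip hx z hz1 hz2 t l (by linarith) (by linarith), ?_⟩
        exact hA h k t l h0 (by linarith) (by linarith) h2
      · refine ⟨1, h - 1, ?_, by linarith⟩
        intro t l ht1 ht2
        refine ⟨P.strip hx z hz1 hz2 t l (by linarith) (by linarith), ?_⟩
        intro h6
        exact hA t l h k (by linarith) (by linarith) h1 h6 h2
    · push Not at hB
      refine ⟨1, P.q + P.q' - 1, ?_, by linarith [P.hq']⟩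
      intro t l ht1 ht2
      exact ⟨P.strip hx z hz1 hz2 t l (by linarith) (by linarith),
        hB t l (by linarith) (by linarith)⟩

lemma runA (c : ℝ) : ∃ z s M, Free α c |P.x| z s M ∧ P.q + P.q' ≤ 2 * M + 2 := by
  rcases lt_or_gt_of_ne P.x_ne with hx | hx
  · exact P.runA_neg hx c
  · obtain ⟨z, s, M, h1, h2⟩ := P.neg.runA_neg (by rw [neg_x]; linarith) (-c)
    refine ⟨-z - |P.x|, s, M, ?_, h2⟩
    apply Free.neg
    rw [neg_x, abs_neg] at h1
    have h3 : -(-z - |P.x|) - |P.x| = z := by ring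
    rw [h3]
    exact h1

end Pair

end Pool.Agent.Helper28.IET3
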