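import Pool.Agent.Helper28.IET3.Free

/-!
The case of partial quotients equal to one.
-/

open Set

namespace Pool.Agent.Helper28.IET3

namespace Pair

variable {α : ℝ} (P : Pair α)

/-- level `P` has no long run: the second mark sits in the middle of a long box -/
lemma golden_neg (hx : P.x < 0) (c : ℝ) (hG : -P.x < 2 * P.x')
    (hO : ∀ h k : ℤ, (h ≠ 0 ∨ k ≠ 0) → |h| < P.q → P.x' - P.x ≤ |(k : ℝ) - h * α|)
    (hc : ∀ h k : ℤ, c + k - h * α ≠ 0)
    (hno : ∀ z s M, Free α c |P.x| z s M → 2 * M < 2 * P.q + P.q' - 2) :
    ∃ h k : ℤ, P.q' < 2 * h ∧ 2 * h < 2 * P.q + P.q' ∧ P.x + P.x' ≤ c + k - h * α ∧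
      c + k - h * α ≤ 0 := by
  have hxx := P.xx
  have hx' : 0 < P.x' := by
    by_contra hcon
    push Not at hcon
    nlinarith
  have hd := P.dec'
  have hqq := P.hqq
  have hq := P.hq
  have hq1 := P.hq'
  rw [abs_of_neg hx, abs_of_pos hx'] at hd
  rw [abs_of_neg hx] at hno
  by_contra hcon
  push Not at hcon
  by_cases h1 : ∃ h k : ℤ, 0 < h ∧ h < P.q + P.q' ∧ P.x + P.x' ≤ c + k - h * α ∧
      c + k - h * α ≤ 0
  · obtain ⟨h, k, h0, hN, hξ1, hξ2⟩ := h1
    have hξ3 : c + k - h * α < 0 := lt_of_le_of_ne hξ2 (hc h k)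
    by_cases hlow : 2 * h ≤ P.q'
    · obtain ⟨z, hz1, hz2, hz⟩ := exists_generic α c (-P.x) P.x
        (P.x + P.x' + (c + k - h * α)) (by linarith)
      have hmem : c + k - h * α ∈ Icc z (z + -P.x) := ⟨by linarith, by linarith⟩
      have := hno z (h + 1) (P.q + P.q' - 1 - h) (by
        intro t l ht1 ht2
        refine ⟨P.strip hx z hz1 (by linarith) t l (by linarith) (by linarith), ?_⟩
        intro h6
        obtain ⟨_, h8⟩ := P.two_hits hx c z hz h k t l (by linarith) (by linarith) hmem h6
        have := h6.2
        linarith)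
      linarith
    · have hhigh : 2 * P.q + P.q' ≤ 2 * h := by
        by_contra hh
        push Not at hh hlow
        have := hcon h k hlow hh hξ1
        linarith
      obtain ⟨z, hz1, hz2, hz⟩ := exists_generic α c (-P.x)
        (max P.x ((c + k - h * α) - P.x')) (P.x + P.x') (by
          apply max_lt <;> linarith)
      have hz3 : P.x < z := lt_of_le_of_lt (le_max_left _ _) hz1
      have hz4 : (c + k - h * α) - P.x' < z := lt_of_le_of_lt (le_max_right _ _) hz1
      have hmem : c + k - h * α ∈ Icc z (z + -P.x) := ⟨by linarith, by linarith⟩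
      have := hno z 1 (h - 1) (by
        intro t l ht1 ht2
        refine ⟨P.strip hx z hz3 (by linarith) t l (by linarith) (by linarith), ?_⟩
        intro h6
        obtain ⟨_, h8⟩ := P.two_hits hx c z hz t l h k (by linarith) (by linarith) h6 hmem
        have := h6.1
        linarith)
      linarith
  · push Not at h1
    -- left points
    have hL : ∀ h k h' k' : ℤ, 0 < h → h < P.q + P.q' → 0 < h' → h' < P.q + P.q' →
        P.x < c + k - h * α → c + k - h * α < P.x + P.x' → P.x < c + k' - h' * α →
        c + k' - h' * α < P.x + P.x' → h = h' ∧ k = k' := by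
      intro h k h' k' a1 a2 a3 a4 b1 b2 b3 b4
      have e1 : |((k' - k : ℤ) : ℝ) - ((h' - h : ℤ) : ℝ) * α| < P.x' := by
        rw [abs_lt]; push_cast; constructor <;> linarith
      have e2 : |((k - k' : ℤ) : ℝ) - ((h - h' : ℤ) : ℝ) * α| < P.x' := by
        rw [abs_lt]; push_cast; constructor <;> linarith
      rcases lt_trichotomy h h' with hh | hh | hh
      · exfalso
        obtain ⟨h4, h5⟩ := P.ret (h' - h) (k' - k) (by linarith) (by linarith)
          (by rw [abs_of_neg hx]; linarith)
        have h6 : P.x' = ((k' - k : ℤ) : ℝ) - ((h' - h : ℤ) : ℝ) * α := by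
          rw [h4, h5]; rfl
        rw [← h6, abs_of_pos hx'] at e1
        exact lt_irrefl _ e1
      · refine ⟨hh, ?_⟩
        subst hh
        by_contra hk
        have h7 := P.best 0 (k' - k) (Or.inr (by intro h8; apply hk; omega)) (by rw [abs_zero]; linarith)
        rw [abs_of_neg hx] at h7
        rw [sub_self] at e1
        push_cast at h7 e1
        linarith
      · exfalso
        obtain ⟨h4, h5⟩ := P.ret (h - h') (k - k') (by linarith) (by linarith)
          (by rw [abs_of_neg hx]; linarith)
        have h6 : P.x' = ((k - k' : ℤ) : ℝ) - ((h - h' : ℤ) : ℝ) * α := by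
          rw [h4, h5]; rfl
        rw [← h6, abs_of_pos hx'] at e2
        exact lt_irrefl _ e2
    -- right points
    have hR : ∀ h k h' k' : ℤ, 0 < h → h < P.q + P.q' → 0 < h' → h' < P.q + P.q' →
        0 < c + k - h * α → c + k - h * α < P.x' → 0 < c + k' - h' * α →
        c + k' - h' * α < P.x' → h = h' ∧ k = k' := by
      intro h k h' k' a1 a2 a3 a4 b1 b2 b3 b4
      have e1 : |((k' - k : ℤ) : ℝ) - ((h' - h : ℤ) : ℝ) * α| < P.x' := by
        rw [abs_lt]; push_cast; constructor <;> linarith
      have e2 : |((k - k' : ℤ) : ℝ) - ((h - h' : ℤ) : ℝ) * α| < P.x' := by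
        rw [abs_lt]; push_cast; constructor <;> linarith
      rcases lt_trichotomy h h' with hh | hh | hh
      · exfalso
        obtain ⟨h4, h5⟩ := P.ret (h' - h) (k' - k) (by linarith) (by linarith)
          (by rw [abs_of_neg hx]; linarith)
        have h6 : P.x' = ((k' - k : ℤ) : ℝ) - ((h' - h : ℤ) : ℝ) * α := by
          rw [h4, h5]; rfl
        rw [← h6, abs_of_pos hx'] at e1
        exact lt_irrefl _ e1
      · refine ⟨hh, ?_⟩
        subst hh
        by_contra hk
        have h7 := P.best 0 (k' - k) (Or.inr (by intro h8; apply hk; omega)) (by rw [abs_zero]; linarith)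
        rw [abs_of_neg hx] at h7
        rw [sub_self] at e1
        push_cast at h7 e1
        linarith
      · exfalso
        obtain ⟨h4, h5⟩ := P.ret (h - h') (k - k') (by linarith) (by linarith)
          (by rw [abs_of_neg hx]; linarith)
        have h6 : P.x' = ((k - k' : ℤ) : ℝ) - ((h - h' : ℤ) : ℝ) * α := by
          rw [h4, h5]; rfl
        rw [← h6, abs_of_pos hx'] at e2
        exact lt_irrefl _ e2
    -- there is a left point
    have hexL : ∃ h k : ℤ, 0 < h ∧ h < P.q + P.q' ∧ P.x < c + k - h * α ∧
        c + k - h * α < P.x + P.x' := by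
      by_contra hno'
      push Not at hno'
      by_cases hexR : ∃ h k : ℤ, 0 < h ∧ h < P.q + P.q' ∧ 0 < c + k - h * α ∧
          c + k - h * α < P.x'
      · obtain ⟨h, k, h0, hN, hr1, hr2⟩ := hexR
        obtain ⟨z, hz1, hz2, hz⟩ := exists_generic α c (-P.x) P.x
          (P.x + (c + k - h * α)) (by linarith)
        have := hno z 1 (P.q + P.q' - 1) (by
          intro t l ht1 ht2
          refine ⟨P.strip hx z hz1 (by linarith) t l (by linarith) (by linarith), ?_⟩
          intro h6
          rcases lt_or_ge (c + l - t * α) (P.x + P.x') with h7 | h7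
          · have := hno' t l (by linarith) (by linarith) (by linarith [h6.1])
            linarith
          · have h8 := h1 t l (by linarith) (by linarith) h7
            obtain ⟨h9, h10⟩ := hR h k t l h0 hN (by linarith) (by linarith) hr1 hr2 h8
              (by linarith [h6.2])
            subst h9; subst h10
            linarith [h6.2])
        linarith
      · push Not at hexR
        obtain ⟨z, hz1, hz2, hz⟩ := exists_generic α c (-P.x) P.x (P.x + P.x') (by linarith)
        have := hno z 1 (P.q + P.q' - 1) (by
          intro t l ht1 ht2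
          refine ⟨P.strip hx z hz1 (by linarith) t l (by linarith) (by linarith), ?_⟩
          intro h6
          rcases lt_or_ge (c + l - t * α) (P.x + P.x') with h7 | h7
          · have := hno' t l (by linarith) (by linarith) (by linarith [h6.1])
            linarith
          · have h8 := h1 t l (by linarith) (by linarith) h7
            have := hexR t l (by linarith) (by linarith) h8
            linarith [h6.2])
        linarith
    obtain ⟨h, k, h0, hN, hl1, hl2⟩ := hexL
    -- there is a right point
    have hexR : ∃ h k : ℤ, 0 < h ∧ h < P.q + P.q' ∧ 0 < c + k - h * α ∧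
        c + k - h * α < P.x' := by
      by_contra hexR
      push Not at hexR
      obtain ⟨z, hz1, hz2, hz⟩ := exists_generic α c (-P.x) (c + k - h * α) (P.x + P.x')
        (by linarith)
      have := hno z 1 (P.q + P.q' - 1) (by
        intro t l ht1 ht2
        refine ⟨P.strip hx z (by linarith) (by linarith) t l (by linarith) (by linarith), ?_⟩
        intro h6
        rcases lt_or_ge (c + l - t * α) (P.x + P.x') with h7 | h7
        · obtain ⟨h9, h10⟩ := hL h k t l h0 hN (by linarith) (by linarith) hl1 hl2
            (by linarith [h6.1]) h7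
          subst h9; subst h10
          linarith [h6.1]
        · have h8 := h1 t l (by linarith) (by linarith) h7
          have := hexR t l (by linarith) (by linarith) h8
          linarith [h6.2])
      linarith
    obtain ⟨h', k', h0', hN', hr1, hr2⟩ := hexR
    -- windows with only the left point
    have hmL : P.q' < 2 * h ∧ 2 * h < 2 * P.q + P.q' := by
      obtain ⟨z, hz1, hz2, hz⟩ := exists_generic α c (-P.x) P.x
        (min (c + k - h * α) (P.x + (c + k' - h' * α))) (by apply lt_min <;> linarith)
      have hz3 : z < c + k - h * α := lt_of_lt_of_le hz2 (min_le_left _ _)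
      have hz4 : z < P.x + (c + k' - h' * α) := lt_of_lt_of_le hz2 (min_le_right _ _)
      have only : ∀ t l : ℤ, 0 < t → t < P.q + P.q' → c + l - t * α ∈ Icc z (z + -P.x) →
          t = h := by
        intro t l ht1 ht2 h6
        rcases lt_or_ge (c + l - t * α) (P.x + P.x') with h7 | h7
        · exact (hL h k t l h0 hN ht1 ht2 hl1 hl2 (by linarith [h6.1]) h7).1.symm
        · exfalso
          have h8 := h1 t l (by linarith) (by linarith) h7
          obtain ⟨h9, h10⟩ := hR h' k' t l h0' hN' ht1 ht2 hr1 hr2 h8 (by linarith [h6.2])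
          subst h9; subst h10
          linarith [h6.2]
      have r1 := hno z 1 (h - 1) (by
        intro t l ht1 ht2
        refine ⟨P.strip hx z hz1 (by linarith) t l (by linarith) (by linarith), ?_⟩
        intro h6
        have := only t l (by linarith) (by linarith) h6
        linarith)
      have r2 := hno z (h + 1) (P.q + P.q' - 1 - h) (by
        intro t l ht1 ht2
        refine ⟨P.strip hx z hz1 (by linarith) t l (by linarith) (by linarith), ?_⟩
        intro h6
        have := only t l (by linarith) (by linarith) h6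
        linarith)
      constructor <;> linarith
    have hmR : P.q' < 2 * h' ∧ 2 * h' < 2 * P.q + P.q' := by
      obtain ⟨z, hz1, hz2, hz⟩ := exists_generic α c (-P.x)
        (max (c + k - h * α) (P.x + (c + k' - h' * α))) (P.x + P.x')
        (by apply max_lt <;> linarith)
      have hz3 : c + k - h * α < z := lt_of_le_of_lt (le_max_left _ _) hz1
      have hz4 : P.x + (c + k' - h' * α) < z := lt_of_le_of_lt (le_max_right _ _) hz1
      have only : ∀ t l : ℤ, 0 < t → t < P.q + P.q' → c + l - t * α ∈ Icc z (z + -P.x) →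
          t = h' := by
        intro t l ht1 ht2 h6
        rcases lt_or_ge (c + l - t * α) (P.x + P.x') with h7 | h7
        · exfalso
          obtain ⟨h9, h10⟩ := hL h k t l h0 hN ht1 ht2 hl1 hl2 (by linarith [h6.1]) h7
          subst h9; subst h10
          linarith [h6.1]
        · have h8 := h1 t l (by linarith) (by linarith) h7
          exact (hR h' k' t l h0' hN' ht1 ht2 hr1 hr2 h8 (by linarith [h6.2])).1.symm
      have r1 := hno z 1 (h' - 1) (by
        intro t l ht1 ht2
        refine ⟨P.strip hx z (by linarith) (by linarith) t l (by linarith) (by linarith), ?_⟩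
        intro h6
        have := only t l (by linarith) (by linarith) h6
        linarith)
      have r2 := hno z (h' + 1) (P.q + P.q' - 1 - h') (by
        intro t l ht1 ht2
        refine ⟨P.strip hx z (by linarith) (by linarith) t l (by linarith) (by linarith), ?_⟩
        intro h6
        have := only t l (by linarith) (by linarith) h6
        linarith)
      constructor <;> linarith
    -- contradiction with the previous level
    have hne : h' - h ≠ 0 ∨ k' - k ≠ 0 := by
      by_contra hcon2
      push Not at hcon2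
      have e1 : h' = h := by omega
      have e2 : k' = k := by omega
      subst e1; subst e2
      linarith
    have h9 := hO (h' - h) (k' - k) hne (by rw [abs_lt]; constructor <;> linarith)
    have h10 : |((k' - k : ℤ) : ℝ) - ((h' - h : ℤ) : ℝ) * α| < P.x' - P.x := by
      rw [abs_lt]; push_cast; constructor <;> linarith
    linarith

lemma golden (c : ℝ) (hG : |P.x| < 2 * |P.x'|)
    (hO : ∀ h k : ℤ, (h ≠ 0 ∨ k ≠ 0) → |h| < P.q → |P.x| + |P.x'| ≤ |(k : ℝ) - h * α|)
    (hc : ∀ h k : ℤ, c + k - h * α ≠ 0)
    (hno : ∀ z s M, Free α c |P.x| z s M → 2 * M < 2 * P.q + P.q' - 2) :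
    ∃ h k : ℤ, P.q' < 2 * h ∧ 2 * h < 2 * P.q + P.q' ∧ 0 < (c + k - h * α) * P.x ∧
      |c + k - h * α| < |P.x| - |P.x'| := by
  have hxx := P.xx
  rcases lt_or_gt_of_ne P.x_ne with hx | hx
  · have hx' : 0 < P.x' := by
      by_contra hcon
      push Not at hcon
      nlinarith
    obtain ⟨h, k, h1, h2, h3, h4⟩ := P.golden_neg hx c
      (by rw [abs_of_neg hx, abs_of_pos hx'] at hG; exact hG)
      (by
        intro h k e1 e2
        have := hO h k e1 e2
        rw [abs_of_neg hx, abs_of_pos hx'] at this
        linarith) hc hno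
    have h5 : c + k - h * α < 0 := lt_of_le_of_ne h4 (hc h k)
    have h6 : P.x + P.x' ≠ c + k - h * α := by
      intro h7
      apply hc (h - (P.q + P.q')) (k - (P.p + P.p'))
      have h8 : P.x + P.x' = ((P.p + P.p' : ℤ) : ℝ) - ((P.q + P.q' : ℤ) : ℝ) * α := by
        unfold x x'; push_cast; ring
      rw [h8] at h7
      push_cast at h7 ⊢
      linarith
    have h7 : P.x + P.x' < c + k - h * α := lt_of_le_of_ne h3 h6
    refine ⟨h, k, h1, h2, mul_pos_of_neg_of_neg h5 hx, ?_⟩
    rw [abs_of_neg h5, abs_of_neg hx, abs_of_pos hx']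
    linarith
  · have hx' : P.x' < 0 := by
      by_contra hcon
      push Not at hcon
      nlinarith
    have e0 : P.neg.x < 0 := by rw [neg_x]; linarith
    obtain ⟨h, k, h1, h2, h3, h4⟩ := P.neg.golden_neg e0 (-c)
      (by
        rw [neg_x, neg_x']
        rw [abs_of_pos hx, abs_of_neg hx'] at hG
        linarith)
      (by
        intro h k e1 e2
        have h5 := hO h (-k) (by
          rcases e1 with e1 | e1
          · left; exact e1
          · right; omega) e2
        rw [neg_x, neg_x']
        rw [abs_of_pos hx, abs_of_neg hx'] at h5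
        have h6 : ((-k : ℤ) : ℝ) - h * α = -((k : ℝ) - h * -α) := by push_cast; ring
        rw [h6, abs_neg] at h5
        linarith)
      (by
        intro h k e1
        apply hc h (-k)
        push_cast
        linarith)
      (by
        intro z s M e1
        apply hno (-z - |P.x|) s M
        apply Free.neg
        rw [neg_x, abs_neg] at e1
        have h3 : -(-z - |P.x|) - |P.x| = z := by ring
        rw [h3]
        exact e1)
    rw [neg_x, neg_x'] at h3
    have h5 : c + ((-k : ℤ) : ℝ) - h * α = -(-c + k - h * -α) := by push_cast; ring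
    have h6 := hc h (-k)
    have h7 : 0 < c + ((-k : ℤ) : ℝ) - h * α := by
      refine lt_of_le_of_ne ?_ h6.symm
      rw [h5]; linarith
    have h8 : P.x + P.x' ≠ c + ((-k : ℤ) : ℝ) - h * α := by
      intro h7
      apply hc (h - (P.q + P.q')) (-k - (P.p + P.p'))
      have h8 : P.x + P.x' = ((P.p + P.p' : ℤ) : ℝ) - ((P.q + P.q' : ℤ) : ℝ) * α := by
        unfold x x'; push_cast; ring
      rw [h8] at h7
      push_cast at h7 ⊢
      linarith
    have h9 : c + ((-k : ℤ) : ℝ) - h * α < P.x + P.x' := by
      refine lt_of_le_of_ne ?_ h8.symm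
      rw [h5]; linarith
    refine ⟨h, -k, h1, h2, mul_pos h7 hx, ?_⟩
    rw [abs_of_pos h7, abs_of_pos hx, abs_of_neg hx']
    linarith

/-- second estimate: three consecutive partial quotients equal to one -/
lemma runB (hα : Irrational α) (c : ℝ) (hc : ∀ h k : ℤ, c + k - h * α ≠ 0)
    (hA0 : P.A = 1) (hA1 : (P.next hα).A = 1) (hA2 : ((P.next hα).next hα).A = 1) :
    (∃ z s M, Free α c |(P.next hα).x| z s M ∧
      2 * (P.next hα).q + (P.next hα).q' - 2 ≤ 2 * M) ∨
    (∃ z s M, Free α c |((P.next hα).next hα).x| z s M ∧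
      2 * ((P.next hα).next hα).q + ((P.next hα).next hα).q' - 2 ≤ 2 * M) := by
  by_contra hcon
  push Not at hcon
  obtain ⟨hcon1, hcon2⟩ := hcon
  set Q := P.next hα with hQ
  set R := Q.next hα with hR
  have hQx : Q.x = P.x' := rfl
  have hRx : R.x = Q.x' := rfl
  have hQx' : |Q.x'| = |P.x| - |P.x'| := by
    rw [hQ, P.next_x' hα, P.abs_next, hA0]; push_cast; ring
  have hRx' : |R.x'| = |Q.x| - |Q.x'| := by
    rw [hR, Q.next_x' hα, Q.abs_next, hA1]; push_cast; ring
  have hGQ : |Q.x| < 2 * |Q.x'| := by
    have := Q.lt_A_mul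
    rw [hA1] at this
    push_cast at this
    linarith
  have hGR : |R.x| < 2 * |R.x'| := by
    have := R.lt_A_mul
    rw [hA2] at this
    push_cast at this
    linarith
  obtain ⟨h1, k1, a1, a2, a3, a4⟩ := Q.golden c hGQ (by
    intro h k e1 e2
    have := P.best h k e1 e2
    rw [hQx'] 
    rw [hQx]
    linarith) hc (by
    intro z s M e1
    exact hcon1 z s M e1)
  obtain ⟨h2, k2, b1, b2, b3, b4⟩ := R.golden c hGR (by
    intro h k e1 e2
    have := Q.best h k e1 e2
    rw [hRx'] 
    rw [hRx]
    linarith) hc (by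
    intro z s M e1
    exact hcon2 z s M e1)
  rw [hRx'] at b4
  rw [hRx] at b4
  have hQq := Q.hq
  have hQqq := Q.hqq
  have hQ1 := Q.hq'
  have hRq : R.q = Q.q' := rfl
  have hRq' : R.q' = Q.q + Q.q' := by
    rw [hR, Q.next_q', hA1]; ring
  rw [hRq'] at b1 b2
  rw [hRq] at b2
  -- signs
  have hs : (c + k1 - h1 * α) * (c + k2 - h2 * α) < 0 := by
    have h3 := Q.xx
    rw [← hRx] at h3
    by_contra h4
    push Not at h4
    have h5 : 0 < ((c + k1 - h1 * α) * Q.x) * ((c + k2 - h2 * α) * R.x) := mul_pos a3 b3
    have h6 : ((c + k1 - h1 * α) * Q.x) * ((c + k2 - h2 * α) * R.x)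
        = ((c + k1 - h1 * α) * (c + k2 - h2 * α)) * (Q.x * R.x) := by ring
    rw [h6] at h5
    have := mul_nonpos_of_nonneg_of_nonpos h4 h3.le
    linarith
  have hne : h2 - h1 ≠ 0 ∨ k2 - k1 ≠ 0 := by
    by_contra hcon2
    push Not at hcon2
    have e1 : h2 = h1 := by omega
    have e2 : k2 = k1 := by omega
    rw [e1, e2] at hs
    nlinarith
  have h7 := R.best (h2 - h1) (k2 - k1) hne (by
    rw [hRq', abs_lt]; constructor <;> linarith)
  have h8 : |((k2 - k1 : ℤ) : ℝ) - ((h2 - h1 : ℤ) : ℝ) * α| ≤
      |c + k2 - h2 * α| + |c + k1 - h1 * α| := by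
    have h9 : ((k2 - k1 : ℤ) : ℝ) - ((h2 - h1 : ℤ) : ℝ) * α
        = (c + k2 - h2 * α) - (c + k1 - h1 * α) := by push_cast; ring
    rw [h9]
    exact abs_sub _ _
  rw [hRx] at h7
  linarith

end Pair

end Pool.Agent.Helper28.IET3
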