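import Pool.Agent.Helper28.IET3.Codes

/-!
Exchanges of three intervals whose map is a rotation.
-/

open Set
open Pool.Agent.Helper44.IET

namespace Pool.Agent.Helper28.IET3

section three

variable (E : Exchange 3)

lemma left0 : E.left 0 = 0 := by
  unfold Exchange.left
  rw [Finset.sum_filter, Fin.sum_univ_three]
  simp

lemma left1 : E.left 1 = E.len 0 := by
  unfold Exchange.left
  rw [Finset.sum_filter, Fin.sum_univ_three]
  simp

lemma left2 : E.left 2 = E.len 0 + E.len 1 := by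
  unfold Exchange.left
  rw [Finset.sum_filter, Fin.sum_univ_three]
  have h1 : (0 : Fin 3) < 2 := by decide
  have h2 : (1 : Fin 3) < 2 := by decide
  simp [h1, h2]

lemma lens : E.len 0 + E.len 1 + E.len 2 = 1 := by
  rw [← Fin.sum_univ_three]; exact E.len_sum

lemma mem0 (x : ℝ) : x ∈ E.interval 0 ↔ 0 ≤ x ∧ x < E.len 0 := by
  unfold Exchange.interval
  rw [left0, zero_add, mem_Ico]

lemma mem1 (x : ℝ) : x ∈ E.interval 1 ↔ E.len 0 ≤ x ∧ x < E.len 0 + E.len 1 := by
  unfold Exchange.interval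
  rw [left1, mem_Ico]

lemma mem2 (x : ℝ) : x ∈ E.interval 2 ↔ E.len 0 + E.len 1 ≤ x ∧ x < 1 := by
  unfold Exchange.interval
  rw [left2, lens, mem_Ico]

lemma imgL (j : Fin 3) : E.imageLeft j =
    (if E.perm 0 < E.perm j then E.len 0 else 0) + (if E.perm 1 < E.perm j then E.len 1 else 0) +
      (if E.perm 2 < E.perm j then E.len 2 else 0) := by
  unfold Exchange.imageLeft
  rw [Finset.sum_filter, Fin.sum_univ_three]

/-- the irreducible permutations of three intervals -/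
lemma perm_cases (h : E.Irreducible) :
    (E.perm 0 = 1 ∧ E.perm 1 = 2 ∧ E.perm 2 = 0) ∨
    (E.perm 0 = 2 ∧ E.perm 1 = 0 ∧ E.perm 2 = 1) ∨
    (E.perm 0 = 2 ∧ E.perm 1 = 1 ∧ E.perm 2 = 0) := by
  have h1 := h 1 (by norm_num) (by norm_num)
  have h2 := h 2 (by norm_num) (by norm_num)
  have i01 : E.perm 0 ≠ E.perm 1 := fun h => absurd (E.perm.injective h) (by decide)
  have i02 : E.perm 0 ≠ E.perm 2 := fun h => absurd (E.perm.injective h) (by decide)
  have i12 : E.perm 1 ≠ E.perm 2 := fun h => absurd (E.perm.injective h) (by decide)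
  have k1 : E.perm 0 ≠ 0 := by
    intro h3
    apply h1
    intro i hi
    have : i = 0 := by apply Fin.ext; simpa using hi
    rw [this, h3]; norm_num
  have k2 : ¬ ((E.perm 0 : ℕ) < 2 ∧ (E.perm 1 : ℕ) < 2) := by
    rintro ⟨h3, h4⟩
    apply h2
    intro i hi
    have : i = 0 ∨ i = 1 := by
      rcases i with ⟨i, hi3⟩
      simp only at hi
      interval_cases i
      · left; rfl
      · right; rfl
    rcases this with rfl | rfl
    · exact h3
    · exact h4
  have e : ∀ a b : Fin 3, a = b ↔ (a : ℕ) = (b : ℕ) := fun a b => Fin.ext_iff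
  simp only [ne_eq, e] at i01 i02 i12 k1 ⊢
  have v0 : ((0 : Fin 3) : ℕ) = 0 := rfl
  have v1 : ((1 : Fin 3) : ℕ) = 1 := rfl
  have v2 : ((2 : Fin 3) : ℕ) = 2 := rfl
  rw [v0] at k1
  rw [v0, v1, v2]
  have b0 := (E.perm 0).2
  have b1 := (E.perm 1).2
  have b2 := (E.perm 2).2
  omega

lemma exists_mem (x : ℝ) (h0 : 0 ≤ x) (h1 : x < 1) : ∃ j, x ∈ E.interval j := by
  rcases lt_or_ge x (E.len 0) with h | h
  · exact ⟨0, (mem0 E x).mpr ⟨h0, h⟩⟩
  · rcases lt_or_ge x (E.len 0 + E.len 1) with h' | h'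
    · exact ⟨1, (mem1 E x).mpr ⟨h, h'⟩⟩
    · exact ⟨2, (mem2 E x).mpr ⟨h', h1⟩⟩

/-- letters agree if thresholds do -/
lemma letter_eq {x y : ℝ} {i j : Fin 3} (hi : x ∈ E.interval i) (hj : y ∈ E.interval j)
    (h1 : x < E.len 0 ↔ y < E.len 0) (h2 : x < E.len 0 + E.len 1 ↔ y < E.len 0 + E.len 1) :
    i = j := by
  have hl1 := E.len_pos 1
  have hcase : ∀ i : Fin 3, i = 0 ∨ i = 1 ∨ i = 2 := by decide
  rcases hcase i with rfl | rfl | rfl <;> rcases hcase j with rfl | rfl | rfl <;>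
    simp only [mem0, mem1, mem2] at hi hj <;> first | rfl | (exfalso; first
      | linarith [h1.mp hi.2, hj.1] | linarith [h1.mpr hj.2, hi.1]
      | linarith [h2.mp hi.2, hj.1] | linarith [h2.mpr hj.2, hi.1])

lemma rot_iter {α : ℝ} (hT : ∀ x, 0 ≤ x → x < 1 → E.T x = Int.fract (x + α)) (x : ℝ) (h0 : 0 ≤ x)
    (h1 : x < 1) (n : ℕ) : E.T^[n] x = Int.fract (x + n * α) := by
  induction n with
  | zero => simp [Int.fract_eq_self.mpr ⟨h0, h1⟩]
  | succ n ih =>
    rw [Function.iterate_succ_apply', ih, hT _ (Int.fract_nonneg _) (Int.fract_lt_one _)]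
    have h2 : Int.fract (x + n * α) = x + n * α - ⌊x + n * α⌋ := rfl
    rw [h2]
    have h3 : x + n * α - ⌊x + n * α⌋ + α = x + ((n + 1 : ℕ) : ℝ) * α - (⌊x + n * α⌋ : ℤ) := by
      push_cast; ring
    rw [h3, Int.fract_sub_intCast]

/-- Keane's condition for a rotation with a cut at `1 - α` and a cut at `y` -/
lemma rot_keane (hK : E.Keane) {α : ℝ} (hα0 : 0 < α) (hα1 : α < 1)
    (hT : ∀ x, 0 ≤ x → x < 1 → E.T x = Int.fract (x + α)) {a b : Fin 3} (ha : 0 < (a : ℕ))
    (hb : 0 < (b : ℕ)) (hab : a ≠ b) (hla : E.left a = 1 - α) {y : ℝ} (hy0 : 0 ≤ y) (hy1 : y < 1)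
    (hlb : E.left b = y) : Irrational α ∧ ∀ h k : ℤ, y + k - h * α ≠ 0 := by
  have hit0 : ∀ n : ℕ, E.T^[n + 1] (E.left a) = Int.fract (n * α) := by
    intro n
    rw [hla, rot_iter E hT (1 - α) (by linarith) (by linarith)]
    have : 1 - α + ((n + 1 : ℕ) : ℝ) * α = n * α + ((1 : ℤ) : ℝ) := by push_cast; ring
    rw [this, Int.fract_add_intCast]
  have hit1 : ∀ n : ℕ, E.T^[n] (E.left b) = Int.fract (y + n * α) := by
    intro n
    rw [hlb, rot_iter E hT y hy0 hy1]
  constructor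
  · rw [irrational_iff_ne_rational]
    intro s t ht heq
    -- α = s / t
    have h1 : E.T^[t.natAbs + 1] (E.left a) = E.T^[0 + 1] (E.left a) := by
      rw [hit0, hit0]
      have ht' : (t : ℝ) ≠ 0 := by exact_mod_cast ht
      rcases Int.natAbs_eq t with h2 | h2
      · have h3 : ((t.natAbs : ℕ) : ℝ) = (t : ℝ) := by
          rw [← Int.cast_natCast (R := ℝ) t.natAbs, ← h2]
        rw [h3, heq]
        have h4 : (t : ℝ) * (s / t) = (s : ℤ) := by field_simp
        rw [h4, Int.fract_intCast]; simp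
      · have h3 : ((t.natAbs : ℕ) : ℝ) = -(t : ℝ) := by
          have h5 : ((t.natAbs : ℕ) : ℤ) = -t := by omega
          rw [← Int.cast_natCast (R := ℝ) t.natAbs, h5]; push_cast; rfl
        rw [h3, heq]
        have h4 : -(t : ℝ) * (s / t) = ((-s : ℤ) : ℝ) := by push_cast; field_simp
        rw [h4, Int.fract_intCast]; simp
    have h2 := (hK a a ha ha _ _ h1).2
    have h3 : t.natAbs ≠ 0 := Int.natAbs_ne_zero.mpr ht
    omega
  · intro h k heq
    have hy : y = h * α - k := by linarith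
    rcases le_or_gt 0 h with h0 | h0
    · obtain ⟨n, rfl⟩ := Int.eq_ofNat_of_zero_le h0
      have h1 : E.T^[n + 1] (E.left a) = E.T^[0] (E.left b) := by
        rw [hit0, hit1]
        have : y + ((0 : ℕ) : ℝ) * α = n * α - (k : ℤ) := by rw [hy]; push_cast; ring
        rw [this, Int.fract_sub_intCast]
      exact hab (hK a b ha hb _ _ h1).1
    · obtain ⟨n, hn⟩ := Int.eq_ofNat_of_zero_le (by omega : 0 ≤ -h)
      have hr : (h : ℝ) = -n := by
        have : h = -(n : ℤ) := by omega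
        rw [this]; push_cast; rfl
      have h1 : E.T^[0 + 1] (E.left a) = E.T^[n] (E.left b) := by
        rw [hit0, hit1]
        have : y + (n : ℝ) * α = ((0 : ℕ) : ℝ) * α - (k : ℤ) := by rw [hy, hr]; push_cast; ring
        rw [this, Int.fract_sub_intCast]
      exact hab (hK a b ha hb _ _ h1).1

theorem rot_powers (hK : E.Keane) {α : ℝ} (hα0 : 0 < α) (hα1 : α < 1)
    (hT : ∀ x, 0 ≤ x → x < 1 → E.T x = Int.fract (x + α)) {a b : Fin 3} (ha : 0 < (a : ℕ))
    (hb : 0 < (b : ℕ)) (hab : a ≠ b) (hla : E.left a = 1 - α) {y : ℝ} (hy0 : 0 ≤ y) (hy1 : y < 1)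
    (hlb : E.left b = y) (u : ℕ → Fin 3) (hu : E.IsCoding u) :
    ((2 + Real.sqrt 2 / 2 : ℝ) : EReal) ≤ critExp u ∧
      ((2 + Real.sqrt 2 / 2 : ℝ) : EReal) ≤ asympCritExp u := by
  obtain ⟨hα, hc⟩ := rot_keane E hK hα0 hα1 hT ha hb hab hla hy0 hy1 hlb
  obtain ⟨x, ⟨hx0, hx1⟩, hcod⟩ := hu
  apply crit_of_runs
  intro ε hε n
  obtain ⟨q, hq, N, hN, hrun⟩ := state_runs α hα y hc x ε hε (n + 1)
  obtain ⟨i, _, hi⟩ := hrun 0
  refine ⟨i, q, q + N, by omega, by omega, ?_, ?_⟩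
  · intro j hj
    have hj' : j < N := by omega
    have hthr : ∀ t, t = E.left a ∨ t = E.left b → Thr α y t := by
      intro t ht
      rcases ht with rfl | rfl
      · exact ⟨1, Or.inr (Or.inl (by rw [hla]; push_cast; ring))⟩
      · exact ⟨0, Or.inl (by rw [hlb]; push_cast; ring)⟩
    have h1 := hcod (i + j)
    have h2 := hcod (i + j + q)
    rw [rot_iter E hT x hx0 hx1] at h1 h2
    have hset : (E.len 0 = E.left a ∨ E.len 0 = E.left b) ∧
        (E.len 0 + E.len 1 = E.left a ∨ E.len 0 + E.len 1 = E.left b) := by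
      have hcase : ∀ i : Fin 3, 0 < (i : ℕ) → i = 1 ∨ i = 2 := by decide
      rcases hcase a ha with rfl | rfl <;> rcases hcase b hb with rfl | rfl
      · exact absurd rfl hab
      · rw [left1, left2]; exact ⟨Or.inl rfl, Or.inr rfl⟩
      · rw [left1, left2]; exact ⟨Or.inr rfl, Or.inl rfl⟩
      · exact absurd rfl hab
    exact letter_eq E h1 h2 (hi j hj' _ (hthr _ hset.1)).symm (hi j hj' _ (hthr _ hset.2)).symm
  · push_cast
    linarith

lemma T_rotA (h0 : E.perm 0 = 1) (h1 : E.perm 1 = 2) (h2 : E.perm 2 = 0) (x : ℝ) (hx0 : 0 ≤ x)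
    (hx1 : x < 1) : E.T x = Int.fract (x + E.len 2) := by
  have l0 := E.len_pos 0
  have l1 := E.len_pos 1
  have l2 := E.len_pos 2
  have ls := lens E
  have a1 : (1 : Fin 3) < 2 := by decide
  have a2 : ¬ (2 : Fin 3) < 1 := by decide
  have a3 : ¬ (1 : Fin 3) < 0 := by decide
  have a4 : ¬ (2 : Fin 3) < 0 := by decide
  have a5 : (0 : Fin 3) < 1 := by decide
  have a6 : (0 : Fin 3) < 2 := by decide
  obtain ⟨j, hj⟩ := exists_mem E x hx0 hx1
  rw [E.T_of_mem hj, imgL, h0, h1, h2]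
  have hcase : ∀ i : Fin 3, i = 0 ∨ i = 1 ∨ i = 2 := by decide
  rcases hcase j with rfl | rfl | rfl
  · rw [mem0] at hj
    rw [left0, h0, if_neg (lt_irrefl _), if_neg a2, if_pos a5]
    rw [Int.fract_eq_self.mpr ⟨by linarith, by linarith [hj.2]⟩]
    ring
  · rw [mem1] at hj
    rw [left1, h1, if_pos a1, if_neg (lt_irrefl _), if_pos a6]
    rw [Int.fract_eq_self.mpr ⟨by linarith, by linarith [hj.2]⟩]
    ring
  · rw [mem2] at hj
    rw [left2, h2, if_neg a3, if_neg a4, if_neg (lt_irrefl _)]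
    have : x + E.len 2 = (x - (E.len 0 + E.len 1)) + ((1 : ℤ) : ℝ) := by push_cast; linarith
    rw [this, Int.fract_add_intCast, Int.fract_eq_self.mpr ⟨by linarith [hj.1], by linarith⟩]
    ring

lemma T_rotB (h0 : E.perm 0 = 2) (h1 : E.perm 1 = 0) (h2 : E.perm 2 = 1) (x : ℝ) (hx0 : 0 ≤ x)
    (hx1 : x < 1) : E.T x = Int.fract (x + (1 - E.len 0)) := by
  have l0 := E.len_pos 0
  have l1 := E.len_pos 1
  have l2 := E.len_pos 2
  have ls := lens E
  have a1 : (1 : Fin 3) < 2 := by decide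
  have a2 : ¬ (2 : Fin 3) < 1 := by decide
  have a3 : ¬ (1 : Fin 3) < 0 := by decide
  have a4 : ¬ (2 : Fin 3) < 0 := by decide
  have a5 : (0 : Fin 3) < 1 := by decide
  have a6 : (0 : Fin 3) < 2 := by decide
  obtain ⟨j, hj⟩ := exists_mem E x hx0 hx1
  rw [E.T_of_mem hj, imgL, h0, h1, h2]
  have hcase : ∀ i : Fin 3, i = 0 ∨ i = 1 ∨ i = 2 := by decide
  rcases hcase j with rfl | rfl | rfl
  · rw [mem0] at hj
    rw [left0, h0, if_neg (lt_irrefl _), if_pos a6, if_pos a1]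
    rw [Int.fract_eq_self.mpr ⟨by linarith, by linarith [hj.2]⟩]
    linarith
  · rw [mem1] at hj
    rw [left1, h1, if_neg a4, if_neg (lt_irrefl _), if_neg a3]
    have : x + (1 - E.len 0) = (x - E.len 0) + ((1 : ℤ) : ℝ) := by push_cast; linarith
    rw [this, Int.fract_add_intCast, Int.fract_eq_self.mpr ⟨by linarith [hj.1], by linarith⟩]
    ring
  · rw [mem2] at hj
    rw [left2, h2, if_neg a2, if_pos a5, if_neg (lt_irrefl _)]
    have : x + (1 - E.len 0) = (x - E.len 0) + ((1 : ℤ) : ℝ) := by push_cast; linarith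
    rw [this, Int.fract_add_intCast, Int.fract_eq_self.mpr ⟨by linarith [hj.1], by linarith⟩]
    ring

/-- case `2 0 1` -/
theorem powers_rotA (hK : E.Keane) (h0 : E.perm 0 = 1) (h1 : E.perm 1 = 2) (h2 : E.perm 2 = 0)
    (u : ℕ → Fin 3) (hu : E.IsCoding u) :
    ((2 + Real.sqrt 2 / 2 : ℝ) : EReal) ≤ critExp u ∧
      ((2 + Real.sqrt 2 / 2 : ℝ) : EReal) ≤ asympCritExp u := by
  have l0 := E.len_pos 0
  have l1 := E.len_pos 1
  have l2 := E.len_pos 2
  have ls := lens E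
  exact rot_powers E hK (α := E.len 2) l2 (by linarith) (T_rotA E h0 h1 h2) (a := 2) (b := 1)
    (by decide) (by decide) (by decide) (by rw [left2]; linarith) (y := E.len 0) l0.le
    (by linarith) (left1 E) u hu

/-- case `1 2 0` -/
theorem powers_rotB (hK : E.Keane) (h0 : E.perm 0 = 2) (h1 : E.perm 1 = 0) (h2 : E.perm 2 = 1)
    (u : ℕ → Fin 3) (hu : E.IsCoding u) :
    ((2 + Real.sqrt 2 / 2 : ℝ) : EReal) ≤ critExp u ∧
      ((2 + Real.sqrt 2 / 2 : ℝ) : EReal) ≤ asympCritExp u := by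
  have l0 := E.len_pos 0
  have l1 := E.len_pos 1
  have l2 := E.len_pos 2
  have ls := lens E
  exact rot_powers E hK (α := 1 - E.len 0) (by linarith) (by linarith) (T_rotB E h0 h1 h2)
    (a := 1) (b := 2) (by decide) (by decide) (by decide) (by rw [left1]; ring)
    (y := E.len 0 + E.len 1) (by linarith) (by linarith) (left2 E) u hu

end three

end Pool.Agent.Helper28.IET3
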