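import Pool.Agent.Helper28.IET3.Golden

/-!
Long runs along every orbit of an irrational rotation with two marked points.
-/

open Set

namespace Pool.Agent.Helper28.IET3

lemma sqrt2_sq : Real.sqrt 2 * Real.sqrt 2 = 2 := Real.mul_self_sqrt (by norm_num)

lemma sqrt2_gt : (1.4142 : ℝ) < Real.sqrt 2 := by
  apply Real.lt_sqrt_of_sq_lt; norm_num

lemma sqrt2_lt : Real.sqrt 2 < (1.4143 : ℝ) := by
  rw [Real.sqrt_lt' (by norm_num)]; norm_num

/-- **Runs.** Long runs for two marks. -/
theorem runs (α : ℝ) (hα : Irrational α) (c : ℝ) (hc : ∀ h k : ℤ, c + k - h * α ≠ 0)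
    (ε : ℝ) (hε : 0 < ε) (K : ℕ) :
    ∃ P : Pair α, (K : ℤ) ≤ P.q ∧ ∃ z s M, Free α c |P.x| z s M ∧
      (1 + Real.sqrt 2 / 2 - ε) * P.q ≤ M := by
  have h2 := sqrt2_sq
  have h2g := sqrt2_gt
  have h2l := sqrt2_lt
  obtain ⟨n0, hn0⟩ := exists_nat_gt (max (K : ℝ) (40 + 2 / ε))
  have hn0K : (K : ℝ) < n0 := lt_of_le_of_lt (le_max_left _ _) hn0
  have hn0e : 40 + 2 / ε < n0 := lt_of_le_of_lt (le_max_right _ _) hn0
  have hlarge : ∀ n, n0 + 1 ≤ n → (n0 : ℤ) ≤ (seq α hα n).q := by
    intro n hn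
    obtain ⟨m, rfl⟩ : ∃ m, n = m + 1 := ⟨n - 1, by omega⟩
    have := seq_q_ge α hα m
    have h3 : (n0 : ℤ) ≤ m := by exact_mod_cast (by omega : n0 ≤ m)
    linarith
  by_cases hg : ∃ N, ∀ n, N ≤ n → (seq α hα n).A = 1
  · obtain ⟨N, hN⟩ := hg
    set n := max N (n0 + 1) + 1 with hn
    have hnN : N ≤ n - 1 := by omega
    have hnn : n0 + 1 ≤ n - 1 := by omega
    set O := seq α hα (n - 1) with hO
    have hP : seq α hα n = O.next hα := by
      have : n = (n - 1) + 1 := by omega
      rw [this]; rfl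
    have hQ : seq α hα (n + 1) = (O.next hα).next hα := by
      have : seq α hα (n + 1) = (seq α hα n).next hα := rfl
      rw [this, hP]
    have hR : seq α hα (n + 2) = ((O.next hα).next hα).next hα := by
      have : seq α hα (n + 2) = (seq α hα (n + 1)).next hα := rfl
      rw [this, hQ]
    have hAO : O.A = 1 := hN _ hnN
    have hAP : (O.next hα).A = 1 := by rw [← hP]; exact hN _ (by omega)
    have hAQ : ((O.next hα).next hα).A = 1 := by rw [← hQ]; exact hN _ (by omega)
    have hAR : (((O.next hα).next hα).next hα).A = 1 := by rw [← hR]; exact hN _ (by omega)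
    set P := O.next hα with hPdef
    have hPq' : P.q' = O.q + O.q' := by rw [hPdef, O.next_q', hAO]; ring
    have hPq : P.q = O.q' := rfl
    have hOqq := O.hqq
    have hQq' : (P.next hα).q' = P.q + P.q' := by rw [P.next_q', hAP]; ring
    have hQq : (P.next hα).q = P.q' := rfl
    have hRq' : ((P.next hα).next hα).q' = P.q' + (P.q + P.q') := by
      rw [(P.next hα).next_q', hAQ, hQq', hQq]; ring
    have hRq : ((P.next hα).next hα).q = P.q + P.q' := by
      rw [(P.next hα).next_q, hQq']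
    have hPn : (n0 : ℤ) ≤ P.q := by rw [← hP]; exact hlarge n (by omega)
    have hPqq := P.hqq
    rcases P.runB hα c hc hAP hAQ hAR with ⟨z, s, M, h3, h4⟩ | ⟨z, s, M, h3, h4⟩
    · refine ⟨P.next hα, by rw [hQq]; have : (K : ℤ) ≤ n0 := by exact_mod_cast hn0K.le
                            linarith, z, s, M, h3, ?_⟩
      rw [hQq, hQq'] at h4
      rw [hQq]
      have h5 : 4 * M ≥ 7 * P.q' - 4 := by linarith
      have h6 : (4 : ℝ) * M ≥ 7 * P.q' - 4 := by exact_mod_cast h5
      have h7 : (n0 : ℝ) ≤ P.q' := by exact_mod_cast (by linarith : (n0 : ℤ) ≤ P.q')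
      have h8 : 0 < 2 / ε := by positivity
      nlinarith
    · refine ⟨(P.next hα).next hα, by rw [hRq]; have : (K : ℤ) ≤ n0 := by exact_mod_cast hn0K.le
                                      linarith [P.hq'], z, s, M, h3, ?_⟩
      rw [hRq, hRq'] at h4
      rw [hRq]
      have h5 : 4 * M ≥ 7 * (P.q + P.q') - 4 := by linarith
      have h6 : (4 : ℝ) * M ≥ 7 * ((P.q + P.q' : ℤ) : ℝ) - 4 := by exact_mod_cast h5
      have h7 : (n0 : ℝ) ≤ ((P.q + P.q' : ℤ) : ℝ) := by
        exact_mod_cast (by linarith [P.hq'] : (n0 : ℤ) ≤ P.q + P.q')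
      have h8 : 0 < 2 / ε := by positivity
      nlinarith
  · push Not at hg
    have key : ∃ n, n0 + 1 ≤ n ∧
        (1 + Real.sqrt 2 - ε) * (seq α hα n).q ≤ (seq α hα n).q' := by
      by_contra hcon
      push Not at hcon
      obtain ⟨n, hn, hA⟩ := hg (n0 + 1)
      have hA2 : 2 ≤ (seq α hα n).A := by
        have := (seq α hα n).one_le_A
        omega
      have e1 := hcon n hn
      have e2 := hcon (n + 1) (by omega)
      rw [seq_q_succ, seq_q'_succ] at e2
      have hqn := hlarge n hn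
      have hq0 : (n0 : ℝ) ≤ (seq α hα n).q := by exact_mod_cast hqn
      have hqq : ((seq α hα n).q : ℝ) ≤ (seq α hα n).q' := by exact_mod_cast (seq α hα n).hqq
      have hAr : (2 : ℝ) ≤ (seq α hα n).A := by exact_mod_cast hA2
      push_cast at e2
      have h8 : 0 < 2 / ε := by positivity
      set q : ℝ := ((seq α hα n).q : ℝ) with hq
      set q' : ℝ := ((seq α hα n).q' : ℝ) with hq'
      set A : ℝ := ((seq α hα n).A : ℝ) with hA'
      have hqpos : 0 < q := by linarith
      have hq'pos : 0 < q' := by linarith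
      have e3 : q + 2 * q' < (1 + Real.sqrt 2 - ε) * q' := by nlinarith
      have e4 : q < (Real.sqrt 2 - 1 - ε) * q' := by linarith
      have e5 : 0 < Real.sqrt 2 - 1 - ε := by
        by_contra h
        push Not at h
        nlinarith
      have e6 : q < (Real.sqrt 2 - 1 - ε) * ((1 + Real.sqrt 2 - ε) * q) := by
        refine lt_of_lt_of_le e4 ?_
        exact mul_le_mul_of_nonneg_left e1.le e5.le
      have e7 : (Real.sqrt 2 - 1 - ε) * (1 + Real.sqrt 2 - ε) < 1 := by nlinarith
      nlinarith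
    obtain ⟨n, hn, hr⟩ := key
    have hqn := hlarge n hn
    obtain ⟨z, s, M, h3, h4⟩ := (seq α hα n).runA c
    refine ⟨seq α hα n, ?_, z, s, M, h3, ?_⟩
    · have : (K : ℤ) ≤ n0 := by exact_mod_cast hn0K.le
      linarith
    · have h5 : ((seq α hα n).q : ℝ) + (seq α hα n).q' ≤ 2 * M + 2 := by exact_mod_cast h4
      have h6 : (n0 : ℝ) ≤ (seq α hα n).q := by exact_mod_cast hqn
      have h7 : 2 < ε * (seq α hα n).q := by
        have : 2 / ε < (seq α hα n).q := by linarith
        rw [div_lt_iff₀ hε] at this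
        linarith
      nlinarith

lemma free_one (y w z : ℝ) (hw : 0 ≤ w) (hy : ∀ k : ℤ, y + k ∉ Icc z (z + w)) :
    ∃ η, 0 < η ∧ ∀ z', z < z' → z' < z + η → ∀ k : ℤ, y + k ∉ Icc z' (z' + w) := by
  set k0 : ℤ := ⌈z - y⌉ with hk0
  have h1 : z ≤ y + k0 := by have := Int.le_ceil (z - y); linarith
  have h2 : y + (k0 - 1) < z := by have := Int.ceil_lt_add_one (z - y); linarith
  have h3 : z + w < y + k0 := by
    by_contra h
    push Not at h
    exact hy k0 ⟨h1, h⟩
  refine ⟨y + k0 - w - z, by linarith, ?_⟩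
  intro z' hz1 hz2 k hk
  rcases lt_or_ge k k0 with h | h
  · have h4 : (k : ℝ) ≤ k0 - 1 := by exact_mod_cast (by omega : k ≤ k0 - 1)
    linarith [hk.1]
  · have h4 : (k0 : ℝ) ≤ k := by exact_mod_cast h
    linarith [hk.2]

lemma free_open (α c w z : ℝ) (hw : 0 ≤ w) (s : ℤ) (n : ℕ) (h : Free α c w z s n) :
    ∃ η, 0 < η ∧ ∀ z', z < z' → z' < z + η → Free α c w z' s n := by
  induction n with
  | zero =>
    refine ⟨1, one_pos, ?_⟩
    intro z' _ _ t k h1 h2
    exfalso
    push_cast at h2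
    linarith
  | succ n ih =>
    obtain ⟨η, hη, ih⟩ := ih (fun t k h1 h2 => h t k h1 (by push_cast; linarith))
    obtain ⟨η1, hη1, h1⟩ := free_one (-(s + n) * α) w z hw (by
      intro k hk
      apply (h (s + n) k (by linarith) (by push_cast; linarith)).1
      push_cast
      rw [show (k : ℝ) - (s + n) * α = -(s + n) * α + k by ring]
      exact hk)
    obtain ⟨η2, hη2, h2⟩ := free_one (c - (s + n) * α) w z hw (by
      intro k hk
      apply (h (s + n) k (by linarith) (by push_cast; linarith)).2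
      push_cast
      rw [show c + (k : ℝ) - (s + n) * α = c - (s + n) * α + k by ring]
      exact hk)
    refine ⟨min η (min η1 η2), by positivity, ?_⟩
    intro z' hz1 hz2 t k ht1 ht2
    have e1 : min η (min η1 η2) ≤ η := min_le_left _ _
    have e2 : min η (min η1 η2) ≤ η1 := (min_le_right _ _).trans (min_le_left _ _)
    have e3 : min η (min η1 η2) ≤ η2 := (min_le_right _ _).trans (min_le_right _ _)
    rcases lt_or_ge t (s + n) with ht | ht
    · exact ih z' hz1 (by linarith) t k ht1 ht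
    · have ht' : t = s + n := by push_cast at ht2; omega
      subst ht'
      constructor
      · have := h1 z' hz1 (by linarith) k
        push_cast
        rw [show (k : ℝ) - (s + n) * α = -(s + n) * α + k by ring]
        exact this
      · have := h2 z' hz1 (by linarith) k
        push_cast
        rw [show c + (k : ℝ) - (s + n) * α = c - (s + n) * α + k by ring]
        exact this

lemma exists_small (α : ℝ) (hα : Irrational α) (δ : ℝ) (hδ : 0 < δ) :
    ∃ P : Pair α, |P.x| < δ ∧ 1 ≤ P.q := by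
  obtain ⟨n, hn⟩ := exists_nat_gt (1 / δ)
  refine ⟨seq α hα (n + 1 + 1), ?_, ?_⟩
  · have h1 := (seq α hα (n + 1 + 1)).area
    have h2 := (seq_grow α hα (n + 1 + 1)).1
    have h3 : ((n + 1 + 1 : ℕ) : ℝ) ≤ (seq α hα (n + 1 + 1)).q' := by exact_mod_cast h2
    have h4 : (0 : ℝ) ≤ (seq α hα (n + 1 + 1)).q := by exact_mod_cast (seq α hα (n + 1 + 1)).hq
    have h5 := (seq α hα (n + 1 + 1)).x_pos
    have h6 := (seq α hα (n + 1 + 1)).x'_pos
    push_cast at h3
    rw [div_lt_iff₀ hδ] at hn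
    by_contra hcon
    push Not at hcon
    have h7 : 1 < |(seq α hα (n + 1 + 1)).x| * (seq α hα (n + 1 + 1)).q' := by
      have h8 : δ * (n + 1 + 1) ≤ |(seq α hα (n + 1 + 1)).x| * (seq α hα (n + 1 + 1)).q' := by
        apply mul_le_mul hcon h3 (by positivity) h5.le
      nlinarith
    have h9 : 0 ≤ |(seq α hα (n + 1 + 1)).x'| * (seq α hα (n + 1 + 1)).q := by positivity
    linarith
  · have := seq_q_ge α hα (n + 1)
    push_cast at this
    linarith

/-- density of forward orbits -/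
lemma orbit_dense (α : ℝ) (hα : Irrational α) (x0 a b : ℝ) (hab : a < b) (S : ℕ) :
    ∃ i : ℕ, S ≤ i ∧ ∃ l : ℤ, a < x0 + i * α + l ∧ x0 + i * α + l < b := by
  obtain ⟨P, hP, hq⟩ := exists_small α hα (b - a) (by linarith)
  have hx := P.x_pos
  obtain ⟨Q, hQ⟩ := Int.eq_ofNat_of_zero_le P.hq
  have hQr : (P.q : ℝ) = Q := by rw [hQ]; push_cast; rfl
  have hxdef : P.x = P.p - Q * α := by rw [← hQr]; rfl
  set y := x0 + S * α with hy
  rcases lt_or_gt_of_ne P.x_ne with hneg | hpos
  · -- step is positive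
    set θ := -P.x with hθ
    have hθpos : 0 < θ := by linarith
    have hθlt : θ < b - a := by rw [abs_of_neg hneg] at hP; exact hP
    obtain ⟨L, hL⟩ := exists_int_gt (y - a)
    -- target interval (a + L, b + L)
    set j := ⌊(a + L - y) / θ⌋ + 1 with hj
    have hj0 : 0 ≤ j := by
      have : 0 ≤ ⌊(a + L - y) / θ⌋ := Int.floor_nonneg.mpr (div_nonneg (by linarith) hθpos.le)
      omega
    have hj1 : a + L - y < j * θ := by
      have := Int.lt_floor_add_one ((a + L - y) / θ)
      rw [div_lt_iff₀ hθpos] at this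
      rw [hj]; push_cast; exact this
    have hj2 : j * θ ≤ a + L - y + θ := by
      have := Int.floor_le ((a + L - y) / θ)
      rw [le_div_iff₀ hθpos] at this
      rw [hj]; push_cast; linarith
    obtain ⟨J, hJ⟩ := Int.eq_ofNat_of_zero_le hj0
    have hJr : (j : ℝ) = J := by rw [hJ]; push_cast; rfl
    rw [hJr] at hj1 hj2
    refine ⟨S + J * Q, by nlinarith [Nat.zero_le (J * Q)], -(J * P.p) - L, ?_, ?_⟩
    · push_cast
      have : x0 + (S + J * Q) * α + (-(J * P.p) - L) = y + J * θ - L := by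
        rw [hθ, hxdef, hy]; ring
      rw [this]; linarith
    · push_cast
      have : x0 + (S + J * Q) * α + (-(J * P.p) - L) = y + J * θ - L := by
        rw [hθ, hxdef, hy]; ring
      rw [this]; linarith
  · set θ := P.x with hθ
    have hθpos : 0 < θ := by linarith
    have hθlt : θ < b - a := by rw [abs_of_pos hpos] at hP; exact hP
    obtain ⟨L, hL⟩ := exists_int_gt (b - y)
    set j := ⌊(y + L - b) / θ⌋ + 1 with hj
    have hj0 : 0 ≤ j := by
      have : 0 ≤ ⌊(y + L - b) / θ⌋ := Int.floor_nonneg.mpr (div_nonneg (by linarith) hθpos.le)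
      omega
    have hj1 : y + L - b < j * θ := by
      have := Int.lt_floor_add_one ((y + L - b) / θ)
      rw [div_lt_iff₀ hθpos] at this
      rw [hj]; push_cast; exact this
    have hj2 : j * θ ≤ y + L - b + θ := by
      have := Int.floor_le ((y + L - b) / θ)
      rw [le_div_iff₀ hθpos] at this
      rw [hj]; push_cast; linarith
    obtain ⟨J, hJ⟩ := Int.eq_ofNat_of_zero_le hj0
    have hJr : (j : ℝ) = J := by rw [hJ]; push_cast; rfl
    rw [hJr] at hj1 hj2
    refine ⟨S + J * Q, by nlinarith [Nat.zero_le (J * Q)], -(J * P.p) + L, ?_, ?_⟩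
    · push_cast
      have : x0 + (S + J * Q) * α + (-(J * P.p) + L) = y - J * θ + L := by
        rw [hxdef, hy]; ring
      rw [this]; linarith
    · push_cast
      have : x0 + (S + J * Q) * α + (-(J * P.p) + L) = y - J * θ + L := by
        rw [hxdef, hy]; ring
      rw [this]; linarith

/-- the window of length `w` based at the orbit of `x0` avoids `ℤ` and `c + ℤ` -/
def OrbitFree (α c w x0 : ℝ) (i M : ℕ) : Prop :=
  ∀ m : ℕ, m < M → ∀ k : ℤ, ((k : ℝ) ∉ Icc (x0 + (i + m : ℕ) * α) (x0 + (i + m : ℕ) * α + w)) ∧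
    (c + k ∉ Icc (x0 + (i + m : ℕ) * α) (x0 + (i + m : ℕ) * α + w))

/-- **Runs along an orbit.** -/
theorem orbit_runs (α : ℝ) (hα : Irrational α) (c : ℝ) (hc : ∀ h k : ℤ, c + k - h * α ≠ 0)
    (x0 : ℝ) (ε : ℝ) (hε : 0 < ε) (hε1 : ε ≤ 1) (K : ℕ) :
    ∃ (q : ℕ) (p : ℤ), K ≤ q ∧ (p : ℝ) - q * α ≠ 0 ∧ ∃ M : ℕ,
      (1 + Real.sqrt 2 / 2 - ε) * q ≤ M ∧ ∀ S : ℕ, ∃ i : ℕ, S ≤ i ∧
        OrbitFree α c |(p : ℝ) - q * α| x0 i M := by
  obtain ⟨P, hPK, z, s, M, hfree, hM⟩ := runs α hα c hc ε hε K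
  obtain ⟨q, hq⟩ := Int.eq_ofNat_of_zero_le P.hq
  have hqr : (P.q : ℝ) = q := by rw [hq]; push_cast; rfl
  have hM0 : 0 ≤ M := by
    have h1 : (0 : ℝ) ≤ M := by
      refine le_trans ?_ hM
      have h3 := sqrt2_gt
      have h4 : (0 : ℝ) ≤ P.q := by exact_mod_cast P.hq
      apply mul_nonneg _ h4
      linarith
    exact_mod_cast h1
  obtain ⟨N, hN⟩ := Int.eq_ofNat_of_zero_le hM0
  have hNr : (M : ℝ) = N := by rw [hN]; push_cast; rfl
  have hxe : P.x = (P.p : ℝ) - q * α := by rw [← hqr]; rfl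
  refine ⟨q, P.p, by rw [hq] at hPK; exact_mod_cast hPK, by rw [← hxe]; exact P.x_ne, N,
    by rw [← hNr, ← hqr]; exact hM, ?_⟩
  rw [← hxe]
  intro S
  rw [hN] at hfree
  obtain ⟨η, hη, hop⟩ := free_open α c |P.x| z (abs_nonneg _) s N hfree
  obtain ⟨i, hi, l, hl1, hl2⟩ := orbit_dense α hα x0 (z + s * α) (z + s * α + η) (by linarith) S
  refine ⟨i, hi, ?_⟩
  intro m hm k
  have h1 := hop (x0 + i * α + l - s * α) (by linarith) (by linarith) (s + m) (k + l)
    (by linarith) (by have : (m : ℤ) < N := by exact_mod_cast hm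
                      linarith)
  obtain ⟨h2, h3⟩ := h1
  push_cast at h2 h3 ⊢
  constructor
  · intro h4
    apply h2
    exact ⟨by linarith [h4.1], by linarith [h4.2]⟩
  · intro h4
    apply h3
    exact ⟨by linarith [h4.1], by linarith [h4.2]⟩

end Pool.Agent.Helper28.IET3
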