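import Pool.Agent.Helper28.IET3.Rot3
import Pool.Agent.Helper28.IET3.Count

/-!
The symmetric exchange of three intervals as a first return map of a rotation.
-/

open Set
open Pool.Agent.Helper44.IET

namespace Pool.Agent.Helper28.IET3

section sym

variable (E : Exchange 3)

/-- length of the circle -/
noncomputable def circ : ℝ := 1 + E.len 1

/-- angle -/
noncomputable def ang : ℝ := (E.len 1 + E.len 2) / circ E

/-- scaled length of the base -/
noncomputable def bas : ℝ := 1 / circ E

lemma circ_pos : 0 < circ E := by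
  have := E.len_pos 1
  unfold circ; linarith

lemma bas_pos : 0 < bas E := one_div_pos.mpr (circ_pos E)

lemma circ_bas : circ E * bas E = 1 := by
  unfold bas; field_simp [(circ_pos E).ne']

lemma circ_ang : circ E * ang E = E.len 1 + E.len 2 := by
  unfold ang; field_simp [(circ_pos E).ne']

lemma bas_lt : bas E < 1 := by
  unfold bas
  rw [div_lt_one (circ_pos E)]
  have := E.len_pos 1
  unfold circ; linarith

lemma bas_sub : circ E * (bas E - ang E) = E.len 0 := by
  rw [mul_sub, circ_bas, circ_ang]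
  linarith [lens E]

lemma one_sub : circ E * (1 - ang E) = E.len 0 + E.len 1 := by
  rw [mul_sub, circ_ang]
  unfold circ
  linarith [lens E]

lemma base_add : circ E * (bas E + ang E - 1) = E.len 2 := by
  rw [mul_sub, mul_add, circ_bas, circ_ang]
  unfold circ
  linarith [lens E]

lemma ang_pos : 0 < ang E := by
  unfold ang
  have := E.len_pos 1
  have := E.len_pos 2
  have := circ_pos E
  positivity

lemma ang_lt : ang E < bas E := by
  have h := bas_sub E
  have h1 := circ_pos E
  have h2 := E.len_pos 0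
  by_contra hcon
  push Not at hcon
  have : circ E * (bas E - ang E) ≤ 0 := mul_nonpos_of_nonneg_of_nonpos h1.le (by linarith)
  linarith

lemma base_ang : 1 < bas E + ang E := by
  have h := base_add E
  have h1 := circ_pos E
  have h2 := E.len_pos 2
  by_contra hcon
  push Not at hcon
  have : circ E * (bas E + ang E - 1) ≤ 0 := mul_nonpos_of_nonneg_of_nonpos h1.le (by linarith)
  linarith

section perm

variable (h0 : E.perm 0 = 2) (h1 : E.perm 1 = 1) (h2 : E.perm 2 = 0)

include h0 h1 h2

lemma T0 {x : ℝ} (hx : x ∈ E.interval 0) : E.T x = x + (E.len 1 + E.len 2) := by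
  rw [E.T_of_mem hx, imgL, h0, h1, h2, left0, if_neg (lt_irrefl _),
    if_pos (by decide : (1 : Fin 3) < 2), if_pos (by decide : (0 : Fin 3) < 2)]
  ring

lemma T1 {x : ℝ} (hx : x ∈ E.interval 1) : E.T x = x + (E.len 2 - E.len 0) := by
  rw [E.T_of_mem hx, imgL, h0, h1, h2, left1, if_neg (lt_irrefl _),
    if_neg (by decide : ¬ (2 : Fin 3) < 1), if_pos (by decide : (0 : Fin 3) < 1)]
  ring

lemma T2 {x : ℝ} (hx : x ∈ E.interval 2) : E.T x = x - (E.len 0 + E.len 1) := by
  rw [E.T_of_mem hx, imgL, h0, h1, h2, left2, if_neg (lt_irrefl _),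
    if_neg (by decide : ¬ (2 : Fin 3) < 0), if_neg (by decide : ¬ (1 : Fin 3) < 0)]
  ring

/-- one step of the exchange is one or two steps of the rotation -/
lemma step (X : ℝ) (hX : Int.fract X < bas E) :
    (E.T (circ E * Int.fract X) = circ E * Int.fract (X + ang E) ∧ Int.fract (X + ang E) < bas E) ∨
    (¬ Int.fract (X + ang E) < bas E ∧ Int.fract (X + 2 * ang E) < bas E ∧
      E.T (circ E * Int.fract X) = circ E * Int.fract (X + 2 * ang E)) := by
  have hc := circ_pos E
  have hg0 := Int.fract_nonneg X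
  have ha := ang_pos E
  have hab := ang_lt E
  have hba := base_ang E
  have hb1 := bas_lt E
  have e1 := bas_sub E
  have e2 := one_sub E
  have e3 := base_add E
  have e4 := circ_bas E
  have e5 := circ_ang E
  have hls := lens E
  have l0 := E.len_pos 0
  have l1 := E.len_pos 1
  have l2 := E.len_pos 2
  have hcd : circ E = 1 + E.len 1 := rfl
  set g := Int.fract X with hg
  have hXg : X = g + (⌊X⌋ : ℤ) := by rw [hg, Int.fract]; ring
  have f1 : Int.fract (X + ang E) = Int.fract (g + ang E) := by
    conv_lhs => rw [hXg]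
    rw [show g + ((⌊X⌋ : ℤ) : ℝ) + ang E = g + ang E + ((⌊X⌋ : ℤ) : ℝ) by ring,
      Int.fract_add_intCast]
  have f2 : Int.fract (X + 2 * ang E) = Int.fract (g + 2 * ang E) := by
    conv_lhs => rw [hXg]
    rw [show g + ((⌊X⌋ : ℤ) : ℝ) + 2 * ang E = g + 2 * ang E + ((⌊X⌋ : ℤ) : ℝ) by ring,
      Int.fract_add_intCast]
  rw [f1, f2]
  have hx0 : 0 ≤ circ E * g := mul_nonneg hc.le hg0
  have hx1 : circ E * g < 1 := by
    rw [← e4]; exact mul_lt_mul_of_pos_left hX hc
  rcases lt_or_ge g (bas E - ang E) with hc1 | hc1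
  · left
    have hx : circ E * g < E.len 0 := by rw [← e1]; exact mul_lt_mul_of_pos_left hc1 hc
    have f3 : Int.fract (g + ang E) = g + ang E :=
      Int.fract_eq_self.mpr ⟨by linarith, by linarith⟩
    rw [f3, T0 E h0 h1 h2 ((mem0 E _).mpr ⟨hx0, hx⟩), mul_add, e5]
    exact ⟨rfl, by linarith⟩
  · have hx : E.len 0 ≤ circ E * g := by rw [← e1]; exact mul_le_mul_of_nonneg_left hc1 hc.le
    rcases lt_or_ge g (1 - ang E) with hc2 | hc2
    · right
      have hx' : circ E * g < E.len 0 + E.len 1 := by
        rw [← e2]; exact mul_lt_mul_of_pos_left hc2 hc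
      have f3 : Int.fract (g + ang E) = g + ang E :=
        Int.fract_eq_self.mpr ⟨by linarith, by linarith⟩
      have f4 : Int.fract (g + 2 * ang E) = g + 2 * ang E - 1 := by
        have : g + 2 * ang E = (g + 2 * ang E - 1) + ((1 : ℤ) : ℝ) := by push_cast; ring
        conv_lhs => rw [this]
        rw [Int.fract_add_intCast]
        exact Int.fract_eq_self.mpr ⟨by linarith, by linarith⟩
      rw [f3, f4, T1 E h0 h1 h2 ((mem1 E _).mpr ⟨hx, hx'⟩)]
      refine ⟨by linarith, by linarith, ?_⟩
      have : circ E * (g + 2 * ang E - 1) = circ E * g + 2 * (circ E * ang E) - circ E := by ring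
      rw [this, e5, hcd]
      linarith
    · left
      have hx' : E.len 0 + E.len 1 ≤ circ E * g := by
        rw [← e2]; exact mul_le_mul_of_nonneg_left hc2 hc.le
      have f3 : Int.fract (g + ang E) = g + ang E - 1 := by
        have : g + ang E = (g + ang E - 1) + ((1 : ℤ) : ℝ) := by push_cast; ring
        conv_lhs => rw [this]
        rw [Int.fract_add_intCast]
        exact Int.fract_eq_self.mpr ⟨by linarith, by linarith⟩
      rw [f3, T2 E h0 h1 h2 ((mem2 E _).mpr ⟨hx', hx1⟩)]
      refine ⟨?_, by linarith⟩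
      have : circ E * (g + ang E - 1) = circ E * g + circ E * ang E - circ E := by ring
      rw [this, e5, hcd]
      linarith

lemma orbit (X : ℝ) (hX : Int.fract X < bas E) (n : ℕ) :
    ∃ t : ℕ, Vis (ang E) (bas E) X t ∧ cnt (ang E) (bas E) X t = n ∧
      E.T^[n] (circ E * Int.fract X) = circ E * Int.fract (X + t * ang E) := by
  induction n with
  | zero => exact ⟨0, by unfold Vis; simpa using hX, by simp [cnt], by simp⟩
  | succ n ih =>
    obtain ⟨t, ht, hn, hT⟩ := ih
    rw [Function.iterate_succ_apply', hT]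
    have hs1 : X + ((t + 1 : ℕ) : ℝ) * ang E = X + t * ang E + ang E := by push_cast; ring
    have hs2 : X + ((t + 2 : ℕ) : ℝ) * ang E = X + t * ang E + 2 * ang E := by push_cast; ring
    have hc1 : cnt (ang E) (bas E) X (t + 1) = n + 1 := by
      unfold cnt at hn ⊢
      rw [Nat.count_succ, if_pos ht, hn]
    rcases step E h0 h1 h2 _ ht with ⟨ha, hb⟩ | ⟨ha, hb, hc⟩
    · refine ⟨t + 1, ?_, hc1, ?_⟩
      · unfold Vis; rw [hs1]; exact hb
      · rw [hs1]; exact ha
    · refine ⟨t + 2, ?_, ?_, ?_⟩
      · unfold Vis; rw [hs2]; exact hb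
      · have h5 : ¬ Vis (ang E) (bas E) X (t + 1) := by unfold Vis; rw [hs1]; exact ha
        unfold cnt at hc1 ⊢
        rw [show t + 2 = (t + 1) + 1 by ring, Nat.count_succ, if_neg h5, hc1]
      · rw [hs2]; exact hc

lemma orbit_at (X : ℝ) (hX : Int.fract X < bas E) (t : ℕ) (ht : Vis (ang E) (bas E) X t) :
    E.T^[cnt (ang E) (bas E) X t] (circ E * Int.fract X) = circ E * Int.fract (X + t * ang E) := by
  obtain ⟨t', ht', hn, hT⟩ := orbit E h0 h1 h2 X hX (cnt (ang E) (bas E) X t)
  have : t' = t := by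
    unfold cnt at hn
    exact Nat.count_injective ht' ht hn
  rw [hT, this]

lemma sym_keane (hK : E.Keane) :
    Irrational (ang E) ∧ ∀ h k : ℤ, bas E + k - h * ang E ≠ 0 := by
  have hc := circ_pos E
  have hr := bas_pos E
  have hr1 := bas_lt E
  have hls := lens E
  have l0 := E.len_pos 0
  have l1 := E.len_pos 1
  have l2 := E.len_pos 2
  have hba := base_ang E
  have hab := ang_lt E
  have hT2 : E.T (E.left 2) = 0 := by
    rw [T2 E h0 h1 h2 ((mem2 E _).mpr ⟨by rw [left2], by rw [left2]; linarith⟩), left2]; ring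
  have hT1 : E.T (E.left 1) = circ E * Int.fract (bas E + ang E - 1) := by
    rw [Int.fract_eq_self.mpr ⟨by linarith, by linarith⟩, base_add,
      T1 E h0 h1 h2 ((mem1 E _).mpr ⟨by rw [left1], by rw [left1]; linarith⟩), left1]; ring
  have hz : (0 : ℝ) = circ E * Int.fract (0 : ℝ) := by simp
  have hfz : Int.fract (0 : ℝ) < bas E := by simpa using hr
  have vis0 : ∀ b : ℕ, 0 < b → 1 ≤ cnt (ang E) (bas E) 0 b := by
    intro b hb
    have h5 : Vis (ang E) (bas E) 0 0 := by unfold Vis; simpa using hr
    have h6 : cnt (ang E) (bas E) 0 0 < cnt (ang E) (bas E) 0 b := Nat.count_strict_mono h5 hb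
    omega
  constructor
  · rw [irrational_iff_ne_rational]
    intro s t ht heq
    have hfr : Int.fract ((0 : ℝ) + ((t.natAbs : ℕ) : ℝ) * ang E) = 0 := by
      have ht' : (t : ℝ) ≠ 0 := by exact_mod_cast ht
      rcases Int.natAbs_eq t with h3 | h3
      · have h4 : ((t.natAbs : ℕ) : ℝ) = (t : ℝ) := by
          rw [← Int.cast_natCast (R := ℝ) t.natAbs, ← h3]
        rw [h4, heq]
        have h5 : (0 : ℝ) + (t : ℝ) * (s / t) = (s : ℤ) := by field_simp; ring
        rw [h5, Int.fract_intCast]
      · have h4 : ((t.natAbs : ℕ) : ℝ) = -(t : ℝ) := by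
          have h5 : ((t.natAbs : ℕ) : ℤ) = -t := by omega
          rw [← Int.cast_natCast (R := ℝ) t.natAbs, h5]; push_cast; rfl
        rw [h4, heq]
        have h5 : (0 : ℝ) + -(t : ℝ) * (s / t) = ((-s : ℤ) : ℝ) := by push_cast; field_simp; ring
        rw [h5, Int.fract_intCast]
    have hvis : Vis (ang E) (bas E) 0 t.natAbs := by unfold Vis; rw [hfr]; exact hr
    have h3 := orbit_at E h0 h1 h2 0 hfz _ hvis
    rw [hfr, mul_zero, ← hz] at h3
    have h4 : 0 < t.natAbs := Int.natAbs_pos.mpr ht
    have h5 := vis0 _ h4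
    have h6 : E.T^[cnt (ang E) (bas E) 0 t.natAbs + 1] (E.left 2) = E.T^[0 + 1] (E.left 2) := by
      rw [Function.iterate_succ_apply, hT2, h3]
      simp [hT2]
    have := (hK 2 2 (by decide) (by decide) _ _ h6).2
    omega
  · intro h k heq
    have hr' : bas E = h * ang E - k := by linarith
    rcases lt_trichotomy h 0 with hneg | hzero | hpos
    · obtain ⟨n, hn⟩ := Int.eq_ofNat_of_zero_le (by omega : 0 ≤ -h - 1)
      have hn' : (h : ℝ) = -(n : ℝ) - 1 := by
        have : h = -(n : ℤ) - 1 := by omega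
        rw [this]; push_cast; ring
      have hfr : Int.fract ((bas E + ang E - 1) + (n : ℝ) * ang E) = 0 := by
        have : (bas E + ang E - 1) + (n : ℝ) * ang E = ((-k - 1 : ℤ) : ℝ) := by
          rw [hr', hn']; push_cast; ring
        rw [this, Int.fract_intCast]
      have hX : Int.fract (bas E + ang E - 1) < bas E := by
        rw [Int.fract_eq_self.mpr ⟨by linarith, by linarith⟩]; linarith
      have hvis : Vis (ang E) (bas E) (bas E + ang E - 1) n := by unfold Vis; rw [hfr]; exact hr
      have h3 := orbit_at E h0 h1 h2 _ hX _ hvis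
      rw [hfr, mul_zero, ← hT1] at h3
      have h6 : E.T^[cnt (ang E) (bas E) (bas E + ang E - 1) n + 1] (E.left 1)
          = E.T^[0 + 1] (E.left 2) := by
        rw [Function.iterate_succ_apply, h3]
        simp [hT2]
      exact absurd (hK 1 2 (by decide) (by decide) _ _ h6).1 (by decide)
    · rw [hzero] at hr'
      have h3 : (bas E : ℝ) = ((-k : ℤ) : ℝ) := by rw [hr']; push_cast; ring
      rw [h3] at hr hr1
      have h4 : 0 < -k := by exact_mod_cast hr
      have h5 : -k < 1 := by exact_mod_cast hr1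
      omega
    · obtain ⟨n, hn⟩ := Int.eq_ofNat_of_zero_le hpos.le
      have hn' : (h : ℝ) = (n : ℝ) := by rw [hn]; push_cast; rfl
      have hfr : Int.fract ((0 : ℝ) + ((n + 1 : ℕ) : ℝ) * ang E) = bas E + ang E - 1 := by
        have : (0 : ℝ) + ((n + 1 : ℕ) : ℝ) * ang E = bas E + ang E - 1 + ((k + 1 : ℤ) : ℝ) := by
          rw [hr', hn']; push_cast; ring
        rw [this, Int.fract_add_intCast]
        exact Int.fract_eq_self.mpr ⟨by linarith, by linarith⟩
      have hvis : Vis (ang E) (bas E) 0 (n + 1) := by unfold Vis; rw [hfr]; linarith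
      have h3 := orbit_at E h0 h1 h2 0 hfz _ hvis
      have h4 : circ E * (bas E + ang E - 1) = E.T (E.left 1) := by
        rw [hT1, Int.fract_eq_self.mpr ⟨by linarith, by linarith⟩]
      rw [hfr, h4, ← hz] at h3
      have h6 : E.T^[cnt (ang E) (bas E) 0 (n + 1) + 1] (E.left 2) = E.T^[0 + 1] (E.left 1) := by
        rw [Function.iterate_succ_apply, hT2, h3]
        simp
      exact absurd (hK 2 1 (by decide) (by decide) _ _ h6).1 (by decide)

end perm

end sym

lemma exists_time (p : ℕ → Prop) [DecidablePred p] (N j : ℕ) (h : j < Nat.count p N) :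
    ∃ m < N, p m ∧ Nat.count p m = j := by
  induction N with
  | zero => simp at h
  | succ N ih =>
    rcases Nat.lt_or_ge j (Nat.count p N) with h1 | h1
    · obtain ⟨m, hm, h2⟩ := ih h1
      exact ⟨m, by omega, h2⟩
    · rw [Nat.count_succ] at h
      split_ifs at h with h2
      · exact ⟨N, by omega, h2, by omega⟩
      · omega

lemma cnt_congr (α r X Y : ℝ) (m : ℕ) (h : ∀ k < m, (Vis α r X k ↔ Vis α r Y k)) :
    cnt α r X m = cnt α r Y m := by
  unfold cnt
  rw [Nat.count_eq_card_filter_range, Nat.count_eq_card_filter_range]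
  congr 1
  apply Finset.filter_congr
  intro k hk
  exact h k (Finset.mem_range.mp hk)

end Pool.Agent.Helper28.IET3
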