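import Pool.Agent.Helper28.IET3.Rot3

/-!
Upper bound: an exchange of three intervals all of whose codings have critical exponent at most
`2 + √2 / 2`.
-/

open Set
open Pool.Agent.Helper44.IET

namespace Pool.Agent.Helper28.IET3

/-- the silver mean rotation number -/
noncomputable def av : ℝ := Real.sqrt 2 - 1

/-- the second cut -/
noncomputable def bv : ℝ := Real.sqrt 2 / 2

lemma av_sq : av * av = 1 - 2 * av := by
  unfold av
  linear_combination sqrt2_sq

lemma av_bv : av = 2 * bv - 1 := by unfold av bv; ring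

lemma av_gt : (0.4142 : ℝ) < av := by unfold av; linarith [sqrt2_gt]

lemma av_lt : av < (0.4143 : ℝ) := by unfold av; linarith [sqrt2_lt]

lemma av_irr : Irrational av := by
  unfold av
  exact (irrational_sqrt_two).sub_intCast 1 |> fun h => by simpa using h

lemma bv_irr : Irrational bv := by
  have h : bv = (av + ((1 : ℤ) : ℝ)) / ((2 : ℤ) : ℝ) := by rw [av_bv]; push_cast; ring
  rw [h]
  exact (av_irr.add_intCast 1).div_intCast (by norm_num)

/-- Pell numbers -/
def pell : ℕ → ℤ
  | 0 => 0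
  | 1 => 1
  | (n + 2) => 2 * pell (n + 1) + pell n

lemma pell_succ (n : ℕ) : pell (n + 2) = 2 * pell (n + 1) + pell n := rfl

lemma pell_pos (n : ℕ) : 0 ≤ pell n ∧ 1 ≤ pell (n + 1) ∧ pell n ≤ pell (n + 1) := by
  induction n with
  | zero => simp [pell]
  | succ n ih =>
    obtain ⟨h1, h2, h3⟩ := ih
    rw [pell_succ]
    exact ⟨by omega, by omega, by omega⟩

lemma pell_err (n : ℕ) : (pell n : ℝ) - pell (n + 1) * av = (-av) ^ (n + 1) := by
  have h : ∀ n, ((pell n : ℝ) - pell (n + 1) * av = (-av) ^ (n + 1)) ∧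
      ((pell (n + 1) : ℝ) - pell (n + 2) * av = (-av) ^ (n + 2)) := by
    intro n
    induction n with
    | zero =>
      constructor
      · simp [pell]
      · simp only [pell]
        push_cast
        linear_combination -av_sq
    | succ n ih =>
      obtain ⟨h1, h2⟩ := ih
      refine ⟨h2, ?_⟩
      have e1 : pell (n + 1 + 2) = 2 * pell (n + 2) + pell (n + 1) := rfl
      have e2 : pell (n + 1 + 1) = 2 * pell (n + 1) + pell n := rfl
      rw [e1]
      have e3 : ((pell (n + 1 + 1) : ℤ) : ℝ) = 2 * (pell (n + 1) : ℝ) + (pell n : ℝ) := by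
        rw [e2]; push_cast; ring
      rw [e3]
      push_cast
      have e4 : (-av) ^ (n + 1 + 2) = (-av) ^ (n + 1) * (av * av) := by ring
      have e5 : (-av) ^ (n + 2) = (-av) ^ (n + 1) * (-av) := by ring
      rw [e5] at h2
      rw [e4, av_sq]
      linear_combination 2 * h2 + h1
  exact (h n).1

lemma pell_det (n : ℕ) : pell n * pell (n + 2) - pell (n + 1) * pell (n + 1) = 1 ∨
    pell n * pell (n + 2) - pell (n + 1) * pell (n + 1) = -1 := by
  induction n with
  | zero => right; simp [pell]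
  | succ n ih =>
    have e1 : pell (n + 1 + 2) = 2 * pell (n + 2) + pell (n + 1) := rfl
    have e2 : pell (n + 1 + 1) = 2 * pell (n + 1) + pell n := rfl
    have e3 : pell (n + 2) = 2 * pell (n + 1) + pell n := rfl
    rw [e1, e2]
    rw [e3] at ih
    rcases ih with h | h
    · right; linear_combination -h
    · left; linear_combination -h

/-- consecutive convergents -/
noncomputable def pellPair (n : ℕ) : Pair av where
  q := pell (n + 1)
  p := pell n
  q' := pell (n + 2)
  p' := pell (n + 1)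
  hq := by have := (pell_pos n).2.1; omega
  hqq := (pell_pos (n + 1)).2.2
  hq' := (pell_pos (n + 1)).2.1
  det := pell_det n
  sgn := by
    have h1 := pell_err n
    have h2 := pell_err (n + 1)
    rw [h1]
    have h3 : (pell (n + 1) : ℝ) - (pell (n + 2) : ℝ) * av = (-av) ^ (n + 1 + 1) := h2
    rw [h3]
    have h4 : (-av) ^ (n + 1) * (-av) ^ (n + 1 + 1) = -(((-av) ^ (n + 1)) ^ 2 * av) := by ring
    rw [h4]
    have h5 := av_gt
    have h6 : (-av) ^ (n + 1) ≠ 0 := pow_ne_zero _ (by linarith)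
    have h7 : 0 < ((-av) ^ (n + 1)) ^ 2 * av := by positivity
    linarith
  dec := by
    have h1 := pell_err n
    have h3 : (pell (n + 1) : ℝ) - (pell (n + 2) : ℝ) * av = (-av) ^ (n + 1 + 1) := pell_err (n + 1)
    have h5 := av_gt
    have h6 := av_lt
    rw [h1, h3, abs_pow, abs_pow, abs_neg, abs_of_pos (by linarith : (0 : ℝ) < av), pow_succ av (n + 1)]
    have h7 : 0 < av ^ (n + 1) := pow_pos (by linarith) _
    nlinarith
  le1 := by
    have h5 := av_gt
    have h6 := av_lt
    rw [pell_err n, abs_pow, abs_neg, abs_of_pos (by linarith : (0 : ℝ) < av)]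
    exact pow_le_one₀ (by linarith) (by linarith)

lemma pell_best (n : ℕ) (p : ℕ) (hp0 : 0 < p) (hp : (p : ℤ) < pell (n + 2)) (k : ℤ) :
    av ^ (n + 1) ≤ |(k : ℝ) - p * av| := by
  have h := (pellPair n).best p k (Or.inl (by omega)) (by
    rw [abs_of_nonneg (by omega : (0 : ℤ) ≤ p)]; exact hp)
  have h1 : |(pellPair n).x| = av ^ (n + 1) := by
    have h5 := av_gt
    change |(pell n : ℝ) - (pell (n + 1) : ℝ) * av| = _
    rw [pell_err n, abs_pow, abs_neg, abs_of_pos (by linarith : (0 : ℝ) < av)]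
  rw [h1] at h
  push_cast at h
  exact h

/-- companion numbers -/
def comp (n : ℕ) : ℤ := pell (n + 1) + pell n

lemma comp_err (n : ℕ) : (comp n : ℝ) * bv - pell (n + 1) = (-av) ^ (n + 1) * bv := by
  have h := pell_err n
  have h1 := av_sq
  have h2 := av_bv
  unfold comp
  push_cast
  have h3 : (pell n : ℝ) = pell (n + 1) * av + (-av) ^ (n + 1) := by linarith
  rw [h3]
  have h4 : bv = (1 + av) / 2 := by linarith
  rw [h4]
  linear_combination (pell (n + 1) : ℝ) / 2 * h1

/-- a hit -/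
def Hit (θ δ w : ℝ) (s : ℤ) : Prop := ∃ n : ℤ, w + s * θ < n ∧ (n : ℝ) ≤ w + s * θ + δ

lemma hit_next {θ δ w : ℝ} {a b ga gb : ℤ} (hs : ((a : ℝ) * θ - ga) * (b * θ - gb) < 0)
    (hd : |(a : ℝ) * θ - ga| + |(b : ℝ) * θ - gb| ≤ δ) {s : ℤ} (h : Hit θ δ w s) :
    Hit θ δ w (s + a) ∨ Hit θ δ w (s + b) := by
  obtain ⟨n, h1, h2⟩ := h
  unfold Hit
  rcases lt_or_ge 0 ((a : ℝ) * θ - ga) with ha | ha
  · have hb : (b : ℝ) * θ - gb < 0 := by
      by_contra h; push Not at h
      have := mul_nonneg ha.le h; linarith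
    rw [abs_of_pos ha, abs_of_neg hb] at hd
    rcases lt_or_ge (w + s * θ + (a * θ - ga)) n with h3 | h3
    · left
      refine ⟨n + ga, ?_, ?_⟩ <;> push_cast <;> linarith
    · right
      refine ⟨n + gb, ?_, ?_⟩ <;> push_cast <;> linarith
  · have ha' : (a : ℝ) * θ - ga < 0 := by
      rcases lt_or_eq_of_le ha with h | h
      · exact h
      · rw [h, zero_mul] at hs; exact absurd hs (lt_irrefl _)
    have hb : 0 < (b : ℝ) * θ - gb := by
      by_contra h; push Not at h
      have := mul_nonneg_of_nonpos_of_nonpos ha'.le h; linarith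
    rw [abs_of_neg ha', abs_of_pos hb] at hd
    rcases lt_or_ge (w + s * θ + (b * θ - gb)) n with h3 | h3
    · right
      refine ⟨n + gb, ?_, ?_⟩ <;> push_cast <;> linarith
    · left
      refine ⟨n + ga, ?_, ?_⟩ <;> push_cast <;> linarith

lemma hit_prev {θ δ w : ℝ} {a b ga gb : ℤ} (hs : ((a : ℝ) * θ - ga) * (b * θ - gb) < 0)
    (hd : |(a : ℝ) * θ - ga| + |(b : ℝ) * θ - gb| ≤ δ) {s : ℤ} (h : Hit θ δ w s) :
    Hit θ δ w (s - a) ∨ Hit θ δ w (s - b) := by
  have h1 := hit_next (θ := θ) (δ := δ) (w := w) (a := -a) (b := -b) (ga := -ga) (gb := -gb)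
    (s := s) (by push_cast; nlinarith) (by
      push_cast
      rw [show -(a : ℝ) * θ - -ga = -(a * θ - ga) by ring,
        show -(b : ℝ) * θ - -gb = -(b * θ - gb) by ring, abs_neg, abs_neg]
      exact hd) h
  rw [sub_eq_add_neg, sub_eq_add_neg]
  exact h1

/-- every block of `b` consecutive integers contains a hit -/
lemma hit_block {θ δ w : ℝ} {a b ga gb : ℤ} (ha : 0 < a) (hab : a ≤ b)
    (hs : ((a : ℝ) * θ - ga) * (b * θ - gb) < 0)
    (hd : |(a : ℝ) * θ - ga| + |(b : ℝ) * θ - gb| ≤ δ) (hex : ∃ s, Hit θ δ w s) (s0 : ℤ) :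
    ∃ s, s0 ≤ s ∧ s < s0 + b ∧ Hit θ δ w s := by
  -- a hit below s0
  have hdown : ∃ s, s < s0 ∧ Hit θ δ w s := by
    obtain ⟨s, hs1⟩ := hex
    have : ∀ n : ℕ, ∀ s, Hit θ δ w s → s < s0 + n → ∃ s', s' < s0 ∧ Hit θ δ w s' := by
      intro n
      induction n with
      | zero => intro s h1 h2; exact ⟨s, by simpa using h2, h1⟩
      | succ n ih =>
        intro s h1 h2
        push_cast at h2
        rcases hit_prev hs hd h1 with h3 | h3
        · exact ih _ h3 (by linarith)
        · exact ih _ h3 (by linarith)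
    exact this (s - s0 + 1).toNat s hs1 (by have := Int.self_le_toNat (s - s0 + 1); omega)
  obtain ⟨s, hs1, hs2⟩ := hdown
  have : ∀ n : ℕ, ∀ s, Hit θ δ w s → s < s0 → s0 ≤ s + n → ∃ s', s0 ≤ s' ∧ s' < s0 + b ∧
      Hit θ δ w s' := by
    intro n
    induction n with
    | zero => intro s _ h2 h3; exfalso; push_cast at h3; omega
    | succ n ih =>
      intro s h1 h2 h3
      push_cast at h3
      have : ∃ c, 0 < c ∧ c ≤ b ∧ Hit θ δ w (s + c) := by
        rcases hit_next hs hd h1 with h4 | h4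
        · exact ⟨a, ha, hab, h4⟩
        · exact ⟨b, by omega, le_rfl, h4⟩
      obtain ⟨c, hc0, hcb, h4⟩ := this
      rcases lt_or_ge (s + c) s0 with h5 | h5
      · exact ih _ h4 h5 (by omega)
      · exact ⟨s + c, h5, by omega, h4⟩
  exact this (s0 - s).toNat s hs2 hs1 (by have := Int.self_le_toNat (s0 - s); omega)

/-- gaps between hits for the silver rotation -/
lemma silver_block (n : ℕ) (δ w : ℝ) (hδ : av ^ (n + 1) ≤ δ) (s0 : ℤ) :
    ∃ s, s0 ≤ s ∧ s < s0 + comp (n + 1) ∧ Hit bv δ w s := by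
  have h5 := av_gt
  have h6 := av_lt
  have hb : 0 < bv := by have := av_bv; linarith
  have p1 := pell_pos n
  have p2 := pell_pos (n + 1)
  have e1 := comp_err n
  have e2 := comp_err (n + 1)
  have hpow : 0 < av ^ (n + 1) := pow_pos (by linarith) _
  apply hit_block (a := comp n) (b := comp (n + 1)) (ga := pell (n + 1)) (gb := pell (n + 2))
  · unfold comp; omega
  · unfold comp; omega
  · rw [e1, e2]
    have h4 : (-av) ^ (n + 1) * bv * ((-av) ^ (n + 1 + 1) * bv)
        = -(((-av) ^ (n + 1)) ^ 2 * av * bv ^ 2) := by ring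
    rw [h4]
    have h6 : (-av) ^ (n + 1) ≠ 0 := pow_ne_zero _ (by linarith)
    have h7 : 0 < ((-av) ^ (n + 1)) ^ 2 * av * bv ^ 2 := by positivity
    linarith
  · rw [e1, e2, abs_mul, abs_mul, abs_pow, abs_pow, abs_neg,
      abs_of_pos (by linarith : (0 : ℝ) < av), abs_of_pos hb]
    have h7 : av ^ (n + 1) * bv + av ^ (n + 1 + 1) * bv = av ^ (n + 1) := by
      have h8 : bv = (1 + av) / 2 := by have := av_bv; linarith
      rw [h8, pow_succ av (n + 1)]
      linear_combination av ^ (n + 1) / 2 * av_sq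
    linarith
  · obtain ⟨i, _, l, hl1, hl2⟩ := orbit_dense bv bv_irr w (-δ) 0 (by linarith) 0
    refine ⟨i, -l, ?_, ?_⟩ <;> push_cast <;> linarith

end Pool.Agent.Helper28.IET3
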